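import Pool.Agent.H373.BU.A7
import Pool.Agent.H373.BU.C3

/-!
# Chains of subgroups, their stabilisers and the Brauer homomorphism
-/

set_option autoImplicit false
set_option linter.unusedSectionVars false
set_option linter.style.haveILetI false

open scoped BigOperators Classical

noncomputable section

namespace Pool.Agent.H373.BU

open MonoidAlgebra

section cs

variable {G : Type} [Group G]

/-- the conjugate `g P g⁻¹` -/
def cs (g : G) (P : Subgroup G) : Subgroup G := P.map (MulAut.conj g).toMonoidHom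

theorem mem_cs {g x : G} {P : Subgroup G} : x ∈ cs g P ↔ g⁻¹ * x * g ∈ P := by
  unfold cs
  rw [Subgroup.mem_map]
  constructor
  · rintro ⟨y, hy, rfl⟩
    change g⁻¹ * (g * y * g⁻¹) * g ∈ P
    have : g⁻¹ * (g * y * g⁻¹) * g = y := by group
    rwa [this]
  · intro h
    refine ⟨_, h, ?_⟩
    change g * (g⁻¹ * x * g) * g⁻¹ = x
    group

theorem cs_mem {g x : G} {P : Subgroup G} : g * x * g⁻¹ ∈ cs g P ↔ x ∈ P := by
  rw [mem_cs]
  have : g⁻¹ * (g * x * g⁻¹) * g = x := by group
  rw [this]

theorem cs_mul (g h : G) (P : Subgroup G) : cs (g * h) P = cs g (cs h P) := by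
  ext x
  rw [mem_cs, mem_cs, mem_cs]
  have : (g * h)⁻¹ * x * (g * h) = h⁻¹ * (g⁻¹ * x * g) * h := by group
  rw [this]

theorem cs_one (P : Subgroup G) : cs 1 P = P := by
  ext x
  rw [mem_cs]
  simp

theorem cs_inv_cs (g : G) (P : Subgroup G) : cs g⁻¹ (cs g P) = P := by
  rw [← cs_mul, inv_mul_cancel, cs_one]

theorem cs_cs_inv (g : G) (P : Subgroup G) : cs g (cs g⁻¹ P) = P := by
  rw [← cs_mul, mul_inv_cancel, cs_one]

theorem mem_nor_iff {g : G} {P : Subgroup G} :
    g ∈ Subgroup.normalizer (P : Set G) ↔ cs g P = P := by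
  rw [Subgroup.mem_normalizer_iff]
  constructor
  · intro h
    ext x
    rw [mem_cs, SetLike.mem_coe.symm]
    have h1 := h (g⁻¹ * x * g)
    have h2 : g * (g⁻¹ * x * g) * g⁻¹ = x := by group
    rw [h2] at h1
    exact h1
  · intro h x
    conv_rhs => rw [← h]
    exact (cs_mem).symm

theorem cs_le {g : G} {P Q : Subgroup G} : cs g P ≤ cs g Q ↔ P ≤ Q := by
  constructor
  · intro h x hx
    exact cs_mem.mp (h (cs_mem.mpr hx))
  · intro h x hx
    exact mem_cs.mpr (h (mem_cs.mp hx))

theorem cs_sSup (g : G) (C : Set (Subgroup G)) : sSup (cs g '' C) = cs g (sSup C) := by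
  rw [sSup_image]
  exact ((Subgroup.gc_map_comap (MulAut.conj g).toMonoidHom).l_sSup (s := C)).symm

theorem cs_sInf (g : G) (C : Set (Subgroup G)) : sInf (cs g '' C) = cs g (sInf C) := by
  ext x
  rw [mem_cs, Subgroup.mem_sInf, Subgroup.mem_sInf]
  constructor
  · intro h P hP
    exact mem_cs.mp (h _ ⟨P, hP, rfl⟩)
  · rintro h _ ⟨P, hP, rfl⟩
    exact mem_cs.mpr (h P hP)

/-- The intersection of the normalisers of the subgroups in `C`; if `C` is a chain, this is the
stabiliser of the chain. -/
def NC (C : Set (Subgroup G)) : Subgroup G := ⨅ P ∈ C, Subgroup.normalizer (P : Set G)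

theorem mem_NC {C : Set (Subgroup G)} {g : G} : g ∈ NC C ↔ ∀ P ∈ C, cs g P = P := by
  unfold NC
  rw [Subgroup.mem_iInf]
  refine forall_congr' fun P => ?_
  rw [Subgroup.mem_iInf]
  exact forall_congr' fun _ => mem_nor_iff

theorem NC_le (C : Set (Subgroup G)) : NC C ≤ Subgroup.normalizer ((sSup C : Subgroup G) : Set G) := by
  intro g hg
  rw [mem_nor_iff, ← cs_sSup]
  congr 1
  ext P
  constructor
  · rintro ⟨Q, hQ, rfl⟩
    rwa [mem_NC.mp hg Q hQ]
  · intro hP
    exact ⟨P, hP, mem_NC.mp hg P hP⟩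

/-- the centraliser of all subgroups in `C` -/
theorem cent_le (C : Set (Subgroup G)) {g : G}
    (hg : g ∈ Subgroup.centralizer ((sSup C : Subgroup G) : Set G)) : g ∈ NC C := by
  rw [mem_NC]
  intro P hP
  rw [← mem_nor_iff, Subgroup.mem_normalizer_iff]
  have key : ∀ x ∈ P, g * x * g⁻¹ = x := by
    intro x hx
    have h1 := (Subgroup.mem_centralizer_iff.mp hg) x ((le_sSup hP : P ≤ sSup C) hx)
    rw [← h1, mul_inv_cancel_right]
  intro x
  constructor
  · intro hx
    change x ∈ P at hx
    change g * x * g⁻¹ ∈ P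
    rwa [key x hx]
  · intro hx
    have h1 := key _ hx
    have h2 : g * x * g⁻¹ = x := by
      have := congrArg (fun y => g⁻¹ * y * g) h1
      simp only [mul_assoc, inv_mul_cancel_left, inv_mul_cancel, mul_one] at this
      rw [← mul_assoc] at this
      exact this
    change x ∈ P
    rwa [h2] at hx

instance (C : Set (Subgroup G)) : ((sInf C).subgroupOf (NC C)).Normal := by
  constructor
  intro m hm n
  rw [Subgroup.mem_subgroupOf, Subgroup.mem_sInf] at hm ⊢
  intro P hP
  have h1 := hm P hP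
  rw [← mem_NC.mp n.2 P hP]
  exact cs_mem.mpr h1

/-- The quotient group `N_G(C) / ⋂ C`. -/
def KC (C : Set (Subgroup G)) : Type := NC C ⧸ (sInf C).subgroupOf (NC C)

instance (C : Set (Subgroup G)) : Group (KC C) :=
  inferInstanceAs (Group (NC C ⧸ (sInf C).subgroupOf (NC C)))

instance (C : Set (Subgroup G)) [Finite G] : Finite (KC C) :=
  inferInstanceAs (Finite (NC C ⧸ (sInf C).subgroupOf (NC C)))

instance (C : Set (Subgroup G)) [Fintype G] : Fintype (KC C) := Fintype.ofFinite _

/-- the projection -/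
def pk (C : Set (Subgroup G)) : NC C →* KC C := QuotientGroup.mk' _

theorem pk_surj (C : Set (Subgroup G)) : Function.Surjective (pk C) := QuotientGroup.mk'_surjective _

theorem pk_one {C : Set (Subgroup G)} {n : NC C} : pk C n = 1 ↔ (n : G) ∈ sInf C := by
  change (QuotientGroup.mk n : NC C ⧸ (sInf C).subgroupOf (NC C)) = 1 ↔ _
  rw [QuotientGroup.eq_one_iff]
  rfl

/-- conjugation by `g` maps `C₁` to `C₂` -/
def Cj (g : G) (C₁ C₂ : Set (Subgroup G)) : Prop := cs g '' C₁ = C₂

theorem Cj.inv {g : G} {C₁ C₂ : Set (Subgroup G)} (h : Cj g C₁ C₂) : Cj g⁻¹ C₂ C₁ := by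
  unfold Cj at h ⊢
  rw [← h, Set.image_image]
  simp_rw [cs_inv_cs]
  exact Set.image_id' _

theorem Cj.comp {g h : G} {C₁ C₂ C₃ : Set (Subgroup G)} (h1 : Cj g C₁ C₂) (h2 : Cj h C₂ C₃) :
    Cj (h * g) C₁ C₃ := by
  unfold Cj at h1 h2 ⊢
  rw [← h2, ← h1, Set.image_image]
  simp_rw [cs_mul]

theorem Cj.one (C : Set (Subgroup G)) : Cj 1 C C := by
  unfold Cj
  simp_rw [cs_one]
  exact Set.image_id' _

theorem Cj.of_mem {g : G} {C : Set (Subgroup G)} (h : g ∈ NC C) : Cj g C C := by
  unfold Cj
  ext P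
  constructor
  · rintro ⟨Q, hQ, rfl⟩
    rwa [mem_NC.mp h Q hQ]
  · intro hP
    exact ⟨P, hP, mem_NC.mp h P hP⟩

theorem Cj.mem {g : G} {C₁ C₂ : Set (Subgroup G)} (h : Cj g C₁ C₂) {P : Subgroup G}
    (hP : P ∈ C₁) : cs g P ∈ C₂ := by
  unfold Cj at h
  rw [← h]
  exact ⟨P, hP, rfl⟩

theorem Cj.sSup {g : G} {C₁ C₂ : Set (Subgroup G)} (h : Cj g C₁ C₂) :
    SupSet.sSup C₂ = cs g (SupSet.sSup C₁) := by
  unfold Cj at h
  rw [← h, cs_sSup]

theorem Cj.sInf {g : G} {C₁ C₂ : Set (Subgroup G)} (h : Cj g C₁ C₂) :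
    InfSet.sInf C₂ = cs g (InfSet.sInf C₁) := by
  unfold Cj at h
  rw [← h, cs_sInf]

theorem Cj.conj_mem {g : G} {C₁ C₂ : Set (Subgroup G)} (h : Cj g C₁ C₂) {n : G} (hn : n ∈ NC C₁) :
    g * n * g⁻¹ ∈ NC C₂ := by
  rw [mem_NC] at hn ⊢
  intro P hP
  have h1 : cs g⁻¹ P ∈ C₁ := h.inv.mem hP
  rw [mul_assoc, cs_mul, cs_mul, hn _ h1, cs_cs_inv]

theorem Cj.cent {g : G} {C₁ C₂ : Set (Subgroup G)} (h : Cj g C₁ C₂) {n : G}
    (hn : n ∈ Subgroup.centralizer ((SupSet.sSup C₁ : Subgroup G) : Set G)) :
    g * n * g⁻¹ ∈ Subgroup.centralizer ((SupSet.sSup C₂ : Subgroup G) : Set G) := by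
  rw [Subgroup.mem_centralizer_iff] at hn ⊢
  intro x hx
  rw [h.sSup] at hx
  have h1 := hn _ (mem_cs.mp hx)
  calc x * (g * n * g⁻¹) = g * (g⁻¹ * x * g * n) * g⁻¹ := by group
    _ = g * (n * (g⁻¹ * x * g)) * g⁻¹ := by rw [h1]
    _ = g * n * g⁻¹ * x := by group

/-- conjugation as an isomorphism of the stabilisers -/
def nck {g : G} {C₁ C₂ : Set (Subgroup G)} (h : Cj g C₁ C₂) : NC C₁ ≃* NC C₂ where
  toFun n := ⟨g * n * g⁻¹, h.conj_mem n.2⟩
  invFun n := ⟨g⁻¹ * n * g⁻¹⁻¹, h.inv.conj_mem n.2⟩
  left_inv n := Subtype.ext (by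
    change g⁻¹ * (g * n * g⁻¹) * g⁻¹⁻¹ = n
    group)
  right_inv n := Subtype.ext (by
    change g * (g⁻¹ * n * g⁻¹⁻¹) * g⁻¹ = n
    group)
  map_mul' a b := Subtype.ext (by
    change g * (a * b) * g⁻¹ = g * a * g⁻¹ * (g * b * g⁻¹)
    group)

theorem nck_coe {g : G} {C₁ C₂ : Set (Subgroup G)} (h : Cj g C₁ C₂) (n : NC C₁) :
    ((nck h n : NC C₂) : G) = g * n * g⁻¹ := rfl

theorem pk_nck_one {g : G} {C₁ C₂ : Set (Subgroup G)} (h : Cj g C₁ C₂) (n : NC C₁) :
    pk C₂ (nck h n) = 1 ↔ pk C₁ n = 1 := by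
  rw [pk_one, pk_one, nck_coe, h.sInf, cs_mem]

/-- conjugation as an isomorphism of the quotients -/
def kck {g : G} {C₁ C₂ : Set (Subgroup G)} (h : Cj g C₁ C₂) : KC C₁ ≃* KC C₂ :=
  QuotientGroup.congr _ _ (nck h) (by
    ext x
    rw [Subgroup.mem_map]
    constructor
    · rintro ⟨n, hn, rfl⟩
      have h1 := (pk_nck_one h n).mpr (pk_one.mpr hn)
      exact pk_one.mp h1
    · intro hx
      refine ⟨(nck h).symm x, ?_, (nck h).apply_symm_apply x⟩
      have h1 : pk C₂ (nck h ((nck h).symm x)) = 1 := by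
        rw [(nck h).apply_symm_apply]
        exact pk_one.mpr hx
      exact pk_one.mp ((pk_nck_one h _).mp h1))

theorem kck_pk {g : G} {C₁ C₂ : Set (Subgroup G)} (h : Cj g C₁ C₂) (n : NC C₁) :
    kck h (pk C₁ n) = pk C₂ (nck h n) := rfl

end cs

section me

variable {R A B : Type} [CommRing R] [Group A] [Group B]

/-- the homomorphism of group algebras -/
def mp (R : Type) {A B : Type} [CommRing R] [Group A] [Group B] (f : A →* B) :
    MonoidAlgebra R A →ₐ[R] MonoidAlgebra R B := MonoidAlgebra.mapDomainAlgHom R R f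

theorem mp_single (f : A →* B) (a : A) (r : R) :
    mp R f (MonoidAlgebra.single a r) = MonoidAlgebra.single (f a) r := by
  unfold mp
  simp [MonoidAlgebra.mapDomainAlgHom]

theorem mp_comp {C : Type} [Group C] (f : A →* B) (g : B →* C) (a : MonoidAlgebra R A) :
    mp R g (mp R f a) = mp R (g.comp f) a := by
  induction a using MonoidAlgebra.induction_linear with
  | zero => simp
  | add a b ha hb => rw [map_add, map_add, map_add, ha, hb]
  | single x r => rw [mp_single, mp_single, mp_single]; rfl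

theorem mp_id (a : MonoidAlgebra R A) : mp R (MonoidHom.id A) a = a := by
  induction a using MonoidAlgebra.induction_linear with
  | zero => simp
  | add a b ha hb => rw [map_add, ha, hb]
  | single x r => rw [mp_single]; rfl

theorem mp_surj {f : A →* B} (hf : Function.Surjective f) : Function.Surjective (mp R f) := by
  intro b
  induction b using MonoidAlgebra.induction_linear with
  | zero => exact ⟨0, map_zero _⟩
  | add a b ha hb =>
    obtain ⟨a', rfl⟩ := ha
    obtain ⟨b', rfl⟩ := hb
    exact ⟨a' + b', map_add _ _ _⟩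
  | single x r =>
    obtain ⟨a, rfl⟩ := hf x
    exact ⟨MonoidAlgebra.single a r, mp_single _ _ _⟩

theorem mp_central {f : A →* B} (hf : Function.Surjective f) {a : MonoidAlgebra R A}
    (ha : ∀ b, a * b = b * a) (b : MonoidAlgebra R B) : mp R f a * b = b * mp R f a := by
  obtain ⟨b', rfl⟩ := mp_surj hf b
  rw [← map_mul, ha, map_mul]

/-- the isomorphism of group algebras -/
def me (R : Type) {A B : Type} [CommRing R] [Group A] [Group B] (f : A ≃* B) :
    MonoidAlgebra R A ≃ₐ[R] MonoidAlgebra R B where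
  toFun := mp R f.toMonoidHom
  invFun := mp R f.symm.toMonoidHom
  left_inv a := by
    rw [mp_comp]
    have : f.symm.toMonoidHom.comp f.toMonoidHom = MonoidHom.id A := by
      ext x
      exact f.symm_apply_apply x
    rw [this, mp_id]
  right_inv a := by
    rw [mp_comp]
    have : f.toMonoidHom.comp f.symm.toMonoidHom = MonoidHom.id B := by
      ext x
      exact f.apply_symm_apply x
    rw [this, mp_id]
  map_mul' := map_mul _
  map_add' := map_add _
  commutes' := (mp R f.toMonoidHom).commutes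

theorem me_apply (f : A ≃* B) (a : MonoidAlgebra R A) : me R f a = mp R f.toMonoidHom a := rfl

theorem me_single (f : A ≃* B) (a : A) (r : R) :
    me R f (MonoidAlgebra.single a r) = MonoidAlgebra.single (f a) r := mp_single _ _ _

theorem me_coeff (f : A ≃* B) (a : MonoidAlgebra R A) (x : A) :
    (me R f a).coeff (f x) = a.coeff x := by
  induction a using MonoidAlgebra.induction_linear with
  | zero => simp
  | add a b ha hb =>
    rw [map_add, coeff_add, Finsupp.add_apply, ha, hb, coeff_add, Finsupp.add_apply]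
  | single y r =>
    rw [me_single, coeff_single, coeff_single, Finsupp.single_apply, Finsupp.single_apply]
    by_cases h : y = x
    · rw [if_pos h, if_pos (by rw [h])]
    · rw [if_neg h, if_neg fun h' => h (f.injective h')]

theorem me_isBlock (f : A ≃* B) {e : MonoidAlgebra R A} (he : IsBlock e) : IsBlock (me R f e) where
  idem := by rw [← map_mul, he.idem]
  central a := by
    obtain ⟨b, rfl⟩ := (me R f).surjective a
    rw [← map_mul, he.central, map_mul]
  ne_zero h := he.ne_zero ((me R f).injective (by rw [h, map_zero]))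
  primitive g hg hgc := by
    obtain ⟨b, rfl⟩ := (me R f).surjective g
    have h1 : b * b = b := (me R f).injective (by rw [map_mul, hg])
    have h2 : ∀ a, b * a = a * b := fun a => (me R f).injective (by rw [map_mul, map_mul, hgc])
    rcases he.primitive b h1 h2 with h | h
    · left
      rw [← map_mul, h, map_zero]
    · right
      rw [← map_mul, h]

theorem me_symm_me (f : A ≃* B) (a : MonoidAlgebra R A) : me R f.symm (me R f a) = a :=
  (me R f).symm_apply_apply a

theorem me_me_symm (f : A ≃* B) (a : MonoidAlgebra R B) : me R f (me R f.symm a) = a :=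
  (me R f).apply_symm_apply a

theorem me_cj (f : A ≃* B) (x : A) (a : MonoidAlgebra R A) :
    me R f (cj x a) = cj (f x) (me R f a) := by
  unfold cj
  rw [map_mul, map_mul, me_single, me_single, map_inv]

end me

section brc

variable {R G : Type} [CommRing R] [Group G]

/-- The image of `a` under the Brauer homomorphism with respect to the subgroup which is generated by
the subgroups in `C`, as an element of the group algebra of `N_G(C)`: the coefficients of `a` at the
elements of the centraliser of this subgroup are kept, the others are replaced by zero. -/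
def brc (C : Set (Subgroup G)) (a : MonoidAlgebra R G) : MonoidAlgebra R (NC C) :=
  .ofCoeff ((a.coeff.comapDomain (fun n : NC C => (n : G)) Subtype.val_injective.injOn).filter
    fun n => (n : G) ∈ Subgroup.centralizer ((sSup C : Subgroup G) : Set G))

theorem brc_coeff (C : Set (Subgroup G)) (a : MonoidAlgebra R G) (n : NC C) :
    (brc C a).coeff n = if (n : G) ∈ Subgroup.centralizer ((sSup C : Subgroup G) : Set G) then
      a.coeff (n : G) else 0 := by
  unfold brc
  rw [coeff_ofCoeff, Finsupp.filter_apply, Finsupp.comapDomain_apply]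

theorem brc_add (C : Set (Subgroup G)) (a b : MonoidAlgebra R G) :
    brc C (a + b) = brc C a + brc C b := by
  apply ext_coeff
  intro n
  rw [coeff_add, Finsupp.add_apply, brc_coeff, brc_coeff, brc_coeff, coeff_add, Finsupp.add_apply]
  split_ifs
  · rfl
  · rw [add_zero]

theorem brc_zero (C : Set (Subgroup G)) : brc C (0 : MonoidAlgebra R G) = 0 := by
  apply ext_coeff
  intro n
  rw [brc_coeff]
  split_ifs <;> rfl

theorem brc_one (C : Set (Subgroup G)) : brc C (1 : MonoidAlgebra R G) = 1 := by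
  apply ext_coeff
  intro n
  rw [brc_coeff]
  change (if _ then (MonoidAlgebra.single (1 : G) (1 : R)).coeff (n : G) else 0) =
    (MonoidAlgebra.single (1 : NC C) (1 : R)).coeff n
  rw [coeff_single, coeff_single, Finsupp.single_apply, Finsupp.single_apply]
  by_cases h : (1 : NC C) = n
  · subst h
    rw [if_pos rfl, OneMemClass.coe_one, if_pos (Subgroup.one_mem _), if_pos rfl]
  · rw [if_neg h]
    split_ifs with h1 h2
    · exact absurd (Subtype.ext h2) h
    · rfl
    · rfl

theorem brc_nck {g : G} {C₁ C₂ : Set (Subgroup G)} (h : Cj g C₁ C₂) (a : MonoidAlgebra R G) :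
    brc C₂ (cj g a) = me R (nck h) (brc C₁ a) := by
  apply ext_coeff
  intro n
  obtain ⟨m, rfl⟩ := (nck h).surjective n
  rw [me_coeff, brc_coeff, brc_coeff, cj_coeff, nck_coe]
  have h1 : g⁻¹ * (g * (m : G) * g⁻¹) * g = m := by group
  rw [h1]
  by_cases h2 : (m : G) ∈ Subgroup.centralizer ((sSup C₁ : Subgroup G) : Set G)
  · rw [if_pos h2, if_pos (h.cent h2)]
  · rw [if_neg h2, if_neg]
    intro h3
    apply h2
    have h4 := h.inv.cent h3
    have h5 : g⁻¹ * (g * (m : G) * g⁻¹) * g⁻¹⁻¹ = m := by group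
    rwa [h5] at h4

theorem mul_coeff [Fintype G] (a b : MonoidAlgebra R G) (x : G) :
    (a * b).coeff x = ∑ g, a.coeff g * b.coeff (g⁻¹ * x) := by
  induction a using MonoidAlgebra.induction_linear with
  | zero => simp
  | add a c ha hc =>
    rw [add_mul, coeff_add, Finsupp.add_apply, ha, hc, ← Finset.sum_add_distrib]
    refine Finset.sum_congr rfl fun g _ => ?_
    rw [coeff_add, Finsupp.add_apply, add_mul]
  | single y r =>
    rw [coeff_single_mul_apply, Finset.sum_eq_single y]
    · rw [coeff_single, Finsupp.single_eq_same]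
    · intro g _ hg
      rw [coeff_single, Finsupp.single_apply, if_neg (Ne.symm hg), zero_mul]
    · intro h
      exact absurd (Finset.mem_univ _) h

end brc

section brmul

variable {p : ℕ} [hp : Fact p.Prime] {k G : Type} [Field k] [CharP k p] [Group G] [Finite G]

theorem brc_mul {C : Set (Subgroup G)} (hC : IsPGroup p (sSup C : Subgroup G))
    {a b : MonoidAlgebra k G} (ha : ∀ t ∈ sSup C, cj t a = a) (hb : ∀ t ∈ sSup C, cj t b = b) :
    brc C (a * b) = brc C a * brc C b := by
  haveI := Fintype.ofFinite G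
  haveI := Fintype.ofFinite (NC C)
  have hcent : ∀ x : G, x ∈ Subgroup.centralizer ((sSup C : Subgroup G) : Set G) ↔
      ∀ t ∈ sSup C, t * x * t⁻¹ = x := by
    intro x
    rw [Subgroup.mem_centralizer_iff]
    refine forall_congr' fun t => forall_congr' fun _ => ?_
    rw [mul_inv_eq_iff_eq_mul]
  apply ext_coeff
  intro n
  rw [mul_coeff]
  by_cases hn : (n : G) ∈ Subgroup.centralizer ((sSup C : Subgroup G) : Set G)
  · rw [brc_coeff, if_pos hn, mul_coeff]
    letI : MulAction (sSup C : Subgroup G) G := MulAction.compHom G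
      ((MulAut.conj : G →* MulAut G).comp (sSup C : Subgroup G).subtype)
    have hsm : ∀ (t : (sSup C : Subgroup G)) (x : G), t • x = (t : G) * x * (t : G)⁻¹ :=
      fun _ _ => rfl
    rw [sum_fixed (p := p) (P := (sSup C : Subgroup G)) (α := G) hC
      (fun g => a.coeff g * b.coeff (g⁻¹ * n)) (by
        intro t g
        rw [hsm]
        have h1 : a.coeff ((t : G) * g * (t : G)⁻¹) = a.coeff g := by
          have := ha (t : G)⁻¹ (inv_mem t.2)
          conv_rhs => rw [← this]
          rw [cj_coeff, inv_inv]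
        have h2 : b.coeff (((t : G) * g * (t : G)⁻¹)⁻¹ * n) = b.coeff (g⁻¹ * n) := by
          have := hb (t : G)⁻¹ (inv_mem t.2)
          conv_rhs => rw [← this]
          rw [cj_coeff, inv_inv]
          congr 1
          have h3 := (hcent _).mp hn (t : G) t.2
          calc ((t : G) * g * (t : G)⁻¹)⁻¹ * n = t * g⁻¹ * (t : G)⁻¹ * n := by group
            _ = t * g⁻¹ * (t : G)⁻¹ * (t * n * (t : G)⁻¹) := by rw [h3]
            _ = t * (g⁻¹ * n) * (t : G)⁻¹ := by group
        rw [h1, h2])]
    symm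
    rw [← Finset.sum_filter_add_sum_filter_not Finset.univ
      (fun m : NC C => (m : G) ∈ Subgroup.centralizer ((sSup C : Subgroup G) : Set G))]
    have h0 : ∑ m ∈ Finset.univ.filter (fun m : NC C =>
        ¬ (m : G) ∈ Subgroup.centralizer ((sSup C : Subgroup G) : Set G)),
        (brc C a).coeff m * (brc C b).coeff (m⁻¹ * n) = 0 := by
      refine Finset.sum_eq_zero fun m hm => ?_
      rw [Finset.mem_filter] at hm
      rw [brc_coeff, if_neg hm.2, zero_mul]
    rw [h0, add_zero]
    refine Finset.sum_bij (fun m _ => (m : G)) ?_ ?_ ?_ ?_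
    · intro m hm
      simp only [Finset.mem_filter, Finset.mem_univ, true_and] at hm ⊢
      intro t
      rw [hsm]
      exact (hcent _).mp hm t t.2
    · intro m _ m' _ h
      exact Subtype.ext h
    · intro g hg
      simp only [Finset.mem_filter, Finset.mem_univ, true_and] at hg
      have h1 : g ∈ Subgroup.centralizer ((sSup C : Subgroup G) : Set G) := by
        rw [hcent]
        intro t ht
        exact hg ⟨t, ht⟩
      refine ⟨⟨g, cent_le C h1⟩, ?_, rfl⟩
      rw [Finset.mem_filter]
      exact ⟨Finset.mem_univ _, h1⟩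
    · intro m hm
      rw [Finset.mem_filter] at hm
      rw [brc_coeff, if_pos hm.2, brc_coeff, if_pos]
      · rfl
      · exact Subgroup.mul_mem _ (Subgroup.inv_mem _ hm.2) hn
  · rw [brc_coeff, if_neg hn]
    symm
    refine Finset.sum_eq_zero fun m _ => ?_
    by_cases h : (m : G) ∈ Subgroup.centralizer ((sSup C : Subgroup G) : Set G)
    · rw [brc_coeff (n := m⁻¹ * n), if_neg, mul_zero]
      intro h1
      apply hn
      have := Subgroup.mul_mem _ h h1
      change (m : G) * ((m : G)⁻¹ * (n : G)) ∈ _ at this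
      rwa [mul_inv_cancel_left] at this
    · rw [brc_coeff, if_neg h, zero_mul]

end brmul

end Pool.Agent.H373.BU
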