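import Pool.Agent.H373.CH.F2

/-!
# Blocks of the stabilisers of chains
-/

set_option autoImplicit false
set_option linter.unusedSectionVars false
set_option linter.style.haveILetI false

open scoped BigOperators Classical

noncomputable section

namespace Pool.Agent.H373.BU

open MonoidAlgebra

/-- the image of `Br_C(b)` in the group algebra of `N_G(C) / ⋂ C` -/
def bq {R G : Type} [CommRing R] [Group G] (C : Set (Subgroup G)) (b : MonoidAlgebra R G) :
    MonoidAlgebra R (KC C) := mp R (pk C) (brc C b)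

section bq

variable {R G : Type} [CommRing R] [Group G]

theorem kck_me {g : G} {C₁ C₂ : Set (Subgroup G)} (h : Cj g C₁ C₂) (a : MonoidAlgebra R (NC C₁)) :
    me R (kck h) (mp R (pk C₁) a) = mp R (pk C₂) (me R (nck h) a) := by
  rw [me_apply, me_apply, mp_comp, mp_comp]
  rfl

theorem bq_kck {g : G} {C₁ C₂ : Set (Subgroup G)} (h : Cj g C₁ C₂) (b : MonoidAlgebra R G) :
    bq C₂ (cj g b) = me R (kck h) (bq C₁ b) := by
  unfold bq
  rw [kck_me, brc_nck h]

theorem me_nck_self {C : Set (Subgroup G)} (n : NC C) (h : Cj (n : G) C C)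
    (a : MonoidAlgebra R (NC C)) : me R (nck h) a = cj n a := by
  apply ext_coeff
  intro m
  obtain ⟨l, rfl⟩ := (nck h).surjective m
  rw [me_coeff, cj_coeff]
  congr 1
  apply Subtype.ext
  change (l : G) = (n : G)⁻¹ * ((n : G) * l * (n : G)⁻¹) * n
  group

theorem me_kck_self {C : Set (Subgroup G)} (n : NC C) (h : Cj (n : G) C C)
    (a : MonoidAlgebra R (KC C)) : me R (kck h) a = cj (pk C n) a := by
  obtain ⟨b, rfl⟩ := mp_surj (pk_surj C) a
  rw [kck_me, me_nck_self]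
  unfold cj
  rw [map_mul, map_mul, mp_single, mp_single, map_inv]

theorem me_kck_central {C : Set (Subgroup G)} {g : G} (hg : g ∈ NC C) (h : Cj g C C)
    {a : MonoidAlgebra R (KC C)} (ha : ∀ b, a * b = b * a) : me R (kck h) a = a := by
  rw [me_kck_self ⟨g, hg⟩ h, cj_central _ ha]

theorem kck_comp {g h : G} {C₁ C₂ C₃ : Set (Subgroup G)} (h1 : Cj g C₁ C₂) (h2 : Cj h C₂ C₃)
    (h3 : Cj (h * g) C₁ C₃) (a : MonoidAlgebra R (KC C₁)) :
    me R (kck h3) a = me R (kck h2) (me R (kck h1) a) := by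
  obtain ⟨b, rfl⟩ := mp_surj (pk_surj C₁) a
  rw [kck_me, kck_me, kck_me]
  congr 1
  rw [me_apply, me_apply, me_apply, mp_comp]
  congr 1
  congr 1
  apply MonoidHom.ext
  intro n
  apply Subtype.ext
  change h * g * (n : G) * (h * g)⁻¹ = h * (g * n * g⁻¹) * h⁻¹
  group

theorem kck_inv {g : G} {C₁ C₂ : Set (Subgroup G)} (h1 : Cj g C₁ C₂) (h2 : Cj g⁻¹ C₂ C₁)
    (a : MonoidAlgebra R (KC C₁)) : me R (kck h2) (me R (kck h1) a) = a := by
  have h3 : Cj (g⁻¹ * g) C₁ C₁ := h1.comp h2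
  rw [← kck_comp h1 h2 h3]
  have h4 : (g⁻¹ * g) ∈ NC C₁ := by
    rw [inv_mul_cancel]
    exact Subgroup.one_mem _
  rw [me_kck_self ⟨g⁻¹ * g, h4⟩ h3]
  have h5 : (⟨g⁻¹ * g, h4⟩ : NC C₁) = 1 := Subtype.ext (inv_mul_cancel g)
  rw [h5, map_one, cj_one]

theorem brc_central [Finite G] {C : Set (Subgroup G)} {b : MonoidAlgebra R G}
    (hb : ∀ a, b * a = a * b) : ∀ a, brc C b * a = a * brc C b := by
  rw [central_iff]
  intro n
  rw [← me_nck_self n (Cj.of_mem n.2), ← brc_nck, cj_central _ hb]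

theorem bq_central [Finite G] {C : Set (Subgroup G)} {b : MonoidAlgebra R G}
    (hb : ∀ a, b * a = a * b) : ∀ a, bq C b * a = a * bq C b :=
  mp_central (pk_surj C) (brc_central hb)

end bq

section SB

variable {p : ℕ} [hp : Fact p.Prime] {k G : Type} [Field k] [CharP k p] [Group G] [Finite G]

theorem bq_idem {C : Set (Subgroup G)} (hC : IsPGroup p (sSup C : Subgroup G))
    {b : MonoidAlgebra k G} (hb : ∀ a, b * a = a * b) (hi : b * b = b) :
    bq C b * bq C b = bq C b := by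
  unfold bq
  rw [← map_mul, ← brc_mul hC (fun t _ => cj_central t hb) (fun t _ => cj_central t hb), hi]

/-- the blocks of `k[N_G(C) / ⋂ C]` which belong to `b` -/
def SB {k G : Type} [Field k] [Group G] (C : Set (Subgroup G)) (b : MonoidAlgebra k G) :
    Set (MonoidAlgebra k (KC C)) := {w | IsBlock w ∧ w * bq C b = w}

theorem mem_SB_of {C : Set (Subgroup G)} (hC : IsPGroup p (sSup C : Subgroup G))
    {b : MonoidAlgebra k G} (hb : ∀ a, b * a = a * b) (hi : b * b = b)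
    {w : MonoidAlgebra k (KC C)} (hw : IsBlock w) (h : w * bq C b ≠ 0) : w ∈ SB C b := by
  refine ⟨hw, ?_⟩
  rcases hw.primitive (bq C b) (bq_idem hC hb hi) (bq_central hb) with h1 | h1
  · exact absurd (by rw [hw.central, h1]) h
  · rw [hw.central, h1]

theorem SB_kck {g : G} {C₁ C₂ : Set (Subgroup G)} (h : Cj g C₁ C₂) {b : MonoidAlgebra k G}
    (hb : ∀ a, b * a = a * b) {w : MonoidAlgebra k (KC C₁)} (hw : w ∈ SB C₁ b) :
    me k (kck h) w ∈ SB C₂ b := by
  refine ⟨me_isBlock _ hw.1, ?_⟩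
  have h1 := bq_kck h b
  rw [cj_central g hb] at h1
  rw [h1, ← map_mul, hw.2]

theorem block_eq {e f : MonoidAlgebra k G} (he : IsBlock e) (hf : IsBlock f) (h : e * f ≠ 0) :
    e = f := by
  have h1 : e * f = f := (hf.primitive e he.idem he.central).resolve_left h
  have h2 : f * e = e := (he.primitive f hf.idem hf.central).resolve_left (by
    rw [hf.central]
    exact h)
  rw [← h2, hf.central, h1]

end SB

namespace Ind

section conj

variable {R X V G : Type} [CommRing R] [Group X] [CommGroup V] [Group G]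
  (I : Ind R X V G) [Finite V]

/-- a `p`-subgroup of the stabiliser is conjugate by an element of `V` to a subgroup of `G` -/
theorem exists_conj' {p : ℕ} [hp : Fact p.Prime] (D : Subgroup X) [Finite D] (hD : IsPGroup p D)
    (hV : ¬ p ∣ Nat.card V) {y : X} (hy : ∀ d ∈ D, y⁻¹ * d * y ∈ I.Y) :
    ∃ v : V, ∀ d ∈ D, ∃ g, I.j g = (y * I.i v)⁻¹ * d * (y * I.i v) := by
  letI : MulAction D (X ⧸ I.j.range) := MulAction.compHom _ D.subtype
  have hsm : ∀ (d : D) (x : X), d • (QuotientGroup.mk x : X ⧸ I.j.range) =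
      QuotientGroup.mk (d * x) := fun _ _ => rfl
  have key : ∀ (d : D) (v : V), ∃ v' : V, (QuotientGroup.mk (d * (y * I.i v)) :
      X ⧸ I.j.range) = QuotientGroup.mk (y * I.i v') := by
    intro d v
    obtain ⟨a, b, hab⟩ := hy d d.2
    refine ⟨a * I.act (I.j b) v, ?_⟩
    rw [QuotientGroup.eq]
    refine ⟨b⁻¹, ?_⟩
    have h1 : (d : X) * (y * I.i v) = y * (I.i a * I.j b) * I.i v := by
      rw [hab]
      group
    rw [h1, map_inv, map_mul, I.act_spec]
    group
  let S : SubMulAction D (X ⧸ I.j.range) :=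
    { carrier := {c | ∃ v : V, c = QuotientGroup.mk (y * I.i v)}
      smul_mem' := by
        rintro d _ ⟨v, rfl⟩
        obtain ⟨v', h⟩ := key d v
        exact ⟨v', by rw [hsm, h]⟩ }
  have hcard : Nat.card V = Nat.card S := by
    refine Nat.card_congr (Equiv.ofBijective
      (fun v => (⟨QuotientGroup.mk (y * I.i v), v, rfl⟩ : S)) ⟨?_, ?_⟩)
    · intro v w h
      have h1 := QuotientGroup.eq.mp (congrArg Subtype.val h)
      obtain ⟨g, hg⟩ := h1
      have h2 : I.i w * I.j 1 = I.i v * I.j g := by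
        rw [hg, map_one]
        group
      exact (I.uniq h2).1.symm
    · rintro ⟨_, v, rfl⟩
      exact ⟨v, rfl⟩
  haveI : Finite S := Nat.finite_of_card_ne_zero (by rw [← hcard]; exact Nat.card_pos.ne')
  obtain ⟨⟨c, v, hv⟩, hc⟩ := hD.nonempty_fixed_point_of_prime_not_dvd_card S (by rwa [← hcard])
  refine ⟨v, fun d hd => ?_⟩
  have h1 : ((⟨d, hd⟩ : D) • c) = c := congrArg Subtype.val (hc ⟨d, hd⟩)
  rw [hv, hsm] at h1
  have h2 := QuotientGroup.eq.mp h1.symm
  obtain ⟨g, hg⟩ := h2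
  refine ⟨g, ?_⟩
  rw [hg]
  group

/-- conjugation by an element of the stabiliser -/
theorem cj_form {C₁ C₂ : Set (Subgroup G)} {a : V} {g : G}
    (h : Cj (I.i a * I.j g) (I.jS C₁) (I.jS C₂)) : Cj g C₁ C₂ ∧ a ∈ I.V0 (sSup C₂) := by
  have key : ∀ P Q : Subgroup G, cs (I.i a * I.j g) (P.map I.j) = Q.map I.j →
      cs g P = Q ∧ a ∈ I.V0 Q := by
    intro P Q hPQ
    have h1 : ∀ d ∈ P, g * d * g⁻¹ ∈ Q ∧ I.act (I.j (g * d * g⁻¹)) a = a := by
      intro d hd
      have h2 : (I.i a * I.j g) * I.j d * (I.i a * I.j g)⁻¹ ∈ Q.map I.j := by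
        rw [← hPQ, cs_mem]
        exact ⟨d, hd, rfl⟩
      obtain ⟨d', hd', h3⟩ := h2
      change I.j d' = _ at h3
      rw [I.conj_form] at h3
      have h4 := I.uniq (v := 1) (g := d') (v' := a * I.act (I.j (g * d * g⁻¹)) a⁻¹)
        (g' := g * d * g⁻¹) (by rw [map_one, one_mul]; exact h3)
      refine ⟨h4.2 ▸ hd', ?_⟩
      have h5 := h4.1
      rw [map_inv, eq_mul_inv_iff_mul_eq, one_mul] at h5
      exact h5
    have h6 : ∀ d' ∈ Q, ∃ d ∈ P, d' = g * d * g⁻¹ := by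
      intro d' hd'
      have h7 : I.j d' ∈ cs (I.i a * I.j g) (P.map I.j) := by
        rw [hPQ]
        exact ⟨d', hd', rfl⟩
      rw [mem_cs] at h7
      obtain ⟨d, hd, h8⟩ := h7
      change I.j d = _ at h8
      refine ⟨d, hd, ?_⟩
      have h9 : I.j d' = (I.i a * I.j g) * I.j d * (I.i a * I.j g)⁻¹ := by
        rw [h8]
        group
      rw [I.conj_form] at h9
      exact (I.uniq (v := 1) (g := d') (v' := a * I.act (I.j (g * d * g⁻¹)) a⁻¹)
        (by rw [map_one, one_mul]; exact h9)).2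
    constructor
    · ext x
      constructor
      · intro hx
        have h7 := (h1 _ (mem_cs.mp hx)).1
        have h8 : g * (g⁻¹ * x * g) * g⁻¹ = x := by group
        rwa [h8] at h7
      · intro hx
        obtain ⟨d, hd, rfl⟩ := h6 x hx
        exact cs_mem.mpr hd
    · intro d' hd'
      obtain ⟨d, hd, rfl⟩ := h6 d' hd'
      exact (h1 d hd).2
  have h1 : ∀ P ∈ C₁, ∃ Q ∈ C₂, cs g P = Q ∧ a ∈ I.V0 Q := by
    intro P hP
    obtain ⟨Q, hQ, hPQ⟩ := h.mem (P := P.map I.j) ⟨P, hP, rfl⟩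
    exact ⟨Q, hQ, key P Q hPQ.symm⟩
  have h2 : ∀ Q ∈ C₂, ∃ P ∈ C₁, cs g P = Q ∧ a ∈ I.V0 Q := by
    intro Q hQ
    have h3 : Q.map I.j ∈ cs (I.i a * I.j g) '' I.jS C₁ := by
      unfold Cj at h
      rw [h]
      exact ⟨Q, hQ, rfl⟩
    obtain ⟨_, ⟨P, hP, rfl⟩, h4⟩ := h3
    exact ⟨P, hP, key P Q h4⟩
  constructor
  · unfold Cj
    ext Q
    constructor
    · rintro ⟨P, hP, rfl⟩
      obtain ⟨Q, hQ, h3, -⟩ := h1 P hP
      rwa [h3]
    · intro hQ
      obtain ⟨P, hP, h3, -⟩ := h2 Q hQ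
      exact ⟨P, hP, h3⟩
  · rw [I.V0_sSup]
    intro Q hQ
    obtain ⟨P, hP, -, h3⟩ := h2 Q hQ
    exact h3

theorem cj_j {C₁ C₂ : Set (Subgroup G)} {g : G} (h : Cj g C₁ C₂) :
    Cj (I.j g) (I.jS C₁) (I.jS C₂) := by
  have key : ∀ P : Subgroup G, cs (I.j g) (P.map I.j) = (cs g P).map I.j := by
    intro P
    ext x
    constructor
    · intro hx
      rw [mem_cs] at hx
      obtain ⟨d, hd, hdx⟩ := hx
      change I.j d = _ at hdx
      refine ⟨g * d * g⁻¹, cs_mem.mpr hd, ?_⟩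
      rw [map_mul, map_mul, map_inv, hdx]
      group
    · rintro ⟨d, hd, rfl⟩
      rw [mem_cs]
      refine ⟨g⁻¹ * d * g, mem_cs.mp hd, ?_⟩
      rw [map_mul, map_mul, map_inv]
  unfold Cj at h ⊢
  rw [← h]
  unfold jS
  rw [Set.image_image, Set.image_image]
  exact Set.image_congr fun P _ => key P

end conj

section main

variable {p : ℕ} [hp : Fact p.Prime] {k X V G : Type} [Field k] [CharP k p] [Group X]
  [CommGroup V] [Group G] [Fintype X] [Fintype V] [Finite G] (I : Ind k X V G)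
  (hV : ¬ p ∣ Nat.card V)

theorem norC_Y {C : Set (Subgroup G)} (hT : IsPGroup p (sSup C : Subgroup G))
    (n : NC (I.jS C)) : n ∈ (I.norC C hT hV).Y ↔ (n : X) ∈ I.Y := by
  constructor
  · rintro ⟨v, g, h⟩
    exact ⟨v, g, congrArg Subtype.val h⟩
  · rintro ⟨v, g, h⟩
    have h1 := I.of_form_mem_NC (C := C) (v := v) (g := g) (by rw [h]; exact n.2)
    exact ⟨⟨v, h1.1⟩, ⟨g, h1.2⟩, Subtype.ext h⟩

theorem brc_ep_io {C : Set (Subgroup G)} (hT : IsPGroup p (sSup C : Subgroup G)) (u : k)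
    (b : MonoidAlgebra k G) : brc (I.jS C) (I.ep u * I.io b) =
      (I.norC C hT hV).ep u * (I.norC C hT hV).io (brc C b) := by
  apply ext_coeff
  intro n
  rw [brc_coeff]
  have hcn : (n : X) ∈ Subgroup.centralizer ((sSup (I.jS C) : Subgroup X) : Set X) ↔
      I.Cn (sSup C) n := by
    rw [I.sSup_jS]
    exact I.cn_iff (sSup C) n
  by_cases hY : (n : X) ∈ I.Y
  · obtain ⟨v, g, hn⟩ := hY
    have h1 := I.of_form_mem_NC (C := C) (v := v) (g := g) (by rw [hn]; exact n.2)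
    have h2 : (I.norC C hT hV).i ⟨v, h1.1⟩ * (I.norC C hT hV).j ⟨g, h1.2⟩ = n := Subtype.ext hn
    have h3 : ((I.norC C hT hV).ep u * (I.norC C hT hV).io (brc C b)).coeff n =
        u * ((I.lam v⁻¹ : kˣ) : k) * (brc C b).coeff ⟨g, h1.2⟩ := by
      rw [← h2, (I.norC C hT hV).coeff_form]
      rfl
    rw [h3, brc_coeff]
    by_cases h : g ∈ Subgroup.centralizer ((sSup C : Subgroup G) : Set G)
    · rw [if_pos h, if_pos, ← hn, I.coeff_form]
      rw [hcn, ← hn]
      refine I.form_cn (sSup C) h1.1 fun d hd => ?_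
      exact (Subgroup.mem_centralizer_iff.mp h d hd).symm
    · rw [if_neg h, if_neg, mul_zero]
      intro h4
      apply h
      rw [hcn, ← hn] at h4
      rw [Subgroup.mem_centralizer_iff]
      intro d hd
      exact (I.cn_form (sSup C) h4 d hd).symm
  · have h1 : n ∉ (I.norC C hT hV).Y := by
      rwa [I.norC_Y hV hT]
    rw [(I.norC C hT hV).coeff_not _ h1, I.coeff_not _ hY, ite_self]

theorem bq_ep_io {C : Set (Subgroup G)} (hC : C.Nonempty)
    (hT : IsPGroup p (sSup C : Subgroup G)) (u : k) (b : MonoidAlgebra k G) :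
    bq (I.jS C) (I.ep u * I.io b) =
      (I.lev C hC hT hV).ep u * (I.lev C hC hT hV).io (bq C b) := by
  unfold bq lev
  rw [I.brc_ep_io hV hT, map_mul, quo_ep, quo_io]

end main

end Ind

end Pool.Agent.H373.BU
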