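import Pool.Agent.H373.CH.F3

/-!
# The correspondence between the pairs
-/

set_option autoImplicit false
set_option linter.unusedSectionVars false
set_option linter.style.haveILetI false

open scoped BigOperators Classical

noncomputable section

namespace Pool.Agent.H373.BU

open MonoidAlgebra

namespace Ind

section main

variable {p : ℕ} [hp : Fact p.Prime] {k X V G : Type} [Field k] [CharP k p] [Group X]
  [CommGroup V] [Group G] [Fintype X] [Fintype V] [Finite G] (I : Ind k X V G)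
  (hV : ¬ p ∣ Nat.card V) {u : k} (hu : u * (Fintype.card V : k) = 1)

include hV hu in
theorem u_V0 {D : Subgroup G} (hD : IsPGroup p D) : u * (Fintype.card (I.V0 D) : k) = 1 := by
  rw [← Nat.card_eq_fintype_card, ← I.card_V0 D hD hV, hu]

theorem pg_jS {C : Set (Subgroup G)} (hT : IsPGroup p (sSup C : Subgroup G)) :
    IsPGroup p (sSup (I.jS C) : Subgroup X) := by
  rw [I.sSup_jS]
  exact hT.map I.j

include hu in
theorem ep_fix {C : Set (Subgroup G)} {t : X} (ht : t ∈ sSup (I.jS C)) :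
    cj t (I.ep u) = I.ep u := by
  rw [I.sSup_jS] at ht
  obtain ⟨d, -, rfl⟩ := ht
  have := I.cj_base hu 1 d 1
  rw [map_one I.i, one_mul, map_one, mul_one, cj_central d (fun b => by rw [one_mul, mul_one]),
    map_one, mul_one] at this
  exact this

include hu in
theorem bq_cen_ep {C : Set (Subgroup G)} (hC : C.Nonempty)
    (hT : IsPGroup p (sSup C : Subgroup G)) {b : MonoidAlgebra k G} (hb : ∀ a, b * a = a * b) :
    bq (I.jS C) (I.cen u b) * (I.lev C hC hT hV).ep u =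
      (I.lev C hC hT hV).ep u * (I.lev C hC hT hV).io (bq C b) := by
  have h1 : bq (I.jS C) (I.ep u) = (I.lev C hC hT hV).ep u := by
    have := I.bq_ep_io hV hC hT u 1
    rw [map_one, mul_one] at this
    rw [this]
    unfold bq
    rw [brc_one, map_one, map_one, mul_one]
  rw [← h1]
  have h2 : bq (I.jS C) (I.cen u b * I.ep u) = bq (I.jS C) (I.cen u b) * bq (I.jS C) (I.ep u) := by
    unfold bq
    rw [← map_mul, ← brc_mul (I.pg_jS hT) (fun t _ => cj_central t (I.cen_comm hu hb))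
      (fun t ht => I.ep_fix hu ht)]
  rw [← h2, I.cen_ep hu hb, I.bq_ep_io hV hC hT, h1]

include hu in
theorem cor_mem {C : Set (Subgroup G)} (hC : C.Nonempty)
    (hT : IsPGroup p (sSup C : Subgroup G)) {b : MonoidAlgebra k G} (hb : ∀ a, b * a = a * b)
    (hi : b * b = b) {w : MonoidAlgebra k (KC C)} (hw : w ∈ SB C b) :
    (I.lev C hC hT hV).cen u w ∈ SB (I.jS C) (I.cen u b) := by
  have hu0 := I.u_V0 hV hu hT
  refine mem_SB_of (I.pg_jS hT) (I.cen_comm hu hb) (by rw [← I.cen_mul hu, hi])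
    ((I.lev C hC hT hV).cen_isBlock hu0 hw.1) ?_
  intro h
  have h1 : (I.lev C hC hT hV).ep u * (I.lev C hC hT hV).io w =
      (I.lev C hC hT hV).ep u * (I.lev C hC hT hV).io 0 := by
    rw [map_zero, mul_zero, ← zero_mul ((I.lev C hC hT hV).ep u), ← h, mul_assoc,
      I.bq_cen_ep hV hu hC hT hb, ← mul_assoc, (I.lev C hC hT hV).cen_ep hu0 hw.1.central,
      mul_assoc, ← map_mul, hw.2]
  exact hw.1.ne_zero ((I.lev C hC hT hV).ep_io_inj hu0 h1)

include hu in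
theorem cor_surj {C : Set (Subgroup G)} (hC : C.Nonempty)
    (hT : IsPGroup p (sSup C : Subgroup G)) {b : MonoidAlgebra k G} (hb : ∀ a, b * a = a * b)
    (hi : b * b = b) {w' : MonoidAlgebra k (KC (I.jS C))} (hw' : IsBlock w')
    (h : w' * bq (I.jS C) (I.ep u * I.io b) ≠ 0) :
    ∃ w ∈ SB C b, (I.lev C hC hT hV).cen u w = w' := by
  have hu0 := I.u_V0 hV hu hT
  rw [I.bq_ep_io hV hC hT, ← mul_assoc] at h
  have h1 : w' * (I.lev C hC hT hV).ep u ≠ 0 := by
    intro h1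
    exact h (by rw [h1, zero_mul])
  obtain ⟨w, hw, rfl⟩ := (I.lev C hC hT hV).exists_cor hu0 hw' h1
  refine ⟨w, mem_SB_of hT hb hi hw ?_, rfl⟩
  intro h2
  apply h
  rw [(I.lev C hC hT hV).cen_ep hu0 hw.central, mul_assoc, ← map_mul, h2, map_zero, mul_zero]

include hV hu in
theorem anchor {b : MonoidAlgebra k G} (hb : ∀ a, b * a = a * b) {C' : Set (Subgroup X)}
    (hC' : C'.Nonempty) (hT' : IsPGroup p (sSup C' : Subgroup X)) {w' : MonoidAlgebra k (KC C')}
    (hw' : w' ∈ SB C' (I.cen u b)) :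
    ∃ (x : X) (C : Set (Subgroup G)) (hx : Cj x (I.jS C) C'), C.Nonempty ∧
      IsPGroup p (sSup C : Subgroup G) ∧
      me k (kck hx.inv) w' * bq (I.jS C) (I.ep u * I.io b) ≠ 0 := by
  let T' : Subgroup X := sSup C'
  letI : MulAction T' I.Q := MulAction.compHom _ T'.subtype
  have hsm : ∀ (d : T') (x : X), d • (QuotientGroup.mk x : I.Q) =
    QuotientGroup.mk ((d : X) * x) := fun _ _ => rfl
  have hout : ∀ (d : T') (q : I.Q), d • q = QuotientGroup.mk ((d : X) * q.out) := by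
    intro d q
    conv_lhs => rw [← QuotientGroup.out_eq' q]
    rfl
  have hsum : brc C' (I.cen u b) = ∑ q ∈ Finset.univ.filter (fun q : I.Q => ∀ d : T', d • q = q),
      brc C' (cj q.out (I.ep u * I.io b)) := by
    apply ext_coeff
    intro n
    rw [coeff_sum, brc_coeff]
    by_cases hn : (n : X) ∈ Subgroup.centralizer ((sSup C' : Subgroup X) : Set X)
    · rw [if_pos hn, I.cen_coeff, sum_fixed (p := p) (P := T') (α := I.Q) hT'
        (fun q => (I.ep u * I.io b).coeff (q.out⁻¹ * n * q.out)) (by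
          intro d q
          rw [hout, I.coeff_out hu hb]
          congr 1
          have h1 := (Subgroup.mem_centralizer_iff.mp hn) (d : X) d.2
          calc ((d : X) * q.out)⁻¹ * n * ((d : X) * q.out) =
              q.out⁻¹ * ((d : X)⁻¹ * (n * (d : X))) * q.out := by group
            _ = q.out⁻¹ * ((d : X)⁻¹ * ((d : X) * n)) * q.out := by rw [h1]
            _ = q.out⁻¹ * n * q.out := by group)]
      refine Finset.sum_congr (by ext q; simp only [Finset.mem_filter]) fun q _ => ?_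
      rw [brc_coeff, if_pos hn, cj_coeff]
    · rw [if_neg hn]
      symm
      refine Finset.sum_eq_zero fun q _ => ?_
      rw [brc_coeff, if_neg hn]
  have hne : w' * bq C' (I.cen u b) ≠ 0 := by
    rw [hw'.2]
    exact hw'.1.ne_zero
  obtain ⟨q, hq, hqne⟩ : ∃ q : I.Q, (∀ d : T', d • q = q) ∧
      w' * bq C' (cj q.out (I.ep u * I.io b)) ≠ 0 := by
    by_contra hcon
    push Not at hcon
    apply hne
    unfold bq
    rw [hsum, map_sum, Finset.mul_sum]
    refine Finset.sum_eq_zero fun q hq => ?_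
    simp only [Finset.mem_filter, Finset.mem_univ, true_and] at hq
    exact hcon q hq
  have h2 : ∀ d ∈ T', q.out⁻¹ * d * q.out ∈ I.Y := by
    intro d hd
    have h3 := hq ⟨d, hd⟩
    rw [hout] at h3
    have h4 : (QuotientGroup.mk q.out : I.Q) = QuotientGroup.mk (d * q.out) := by
      rw [QuotientGroup.out_eq']
      exact h3.symm
    have h5 := QuotientGroup.eq.mp h4
    rwa [← mul_assoc] at h5
  obtain ⟨v, hv⟩ := I.exists_conj' T' hT' hV h2
  let x : X := q.out * I.i v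
  have hxe : cj x (I.ep u * I.io b) = cj q.out (I.ep u * I.io b) := by
    change cj (q.out * I.i v) _ = _
    rw [cj_mul]
    congr 1
    have := I.cj_base hu v 1 b
    rwa [map_one, mul_one, cj_one] at this
  let C : Set (Subgroup G) := {P | cs x (P.map I.j) ∈ C'}
  have hx : Cj x (I.jS C) C' := by
    unfold Cj
    ext P'
    constructor
    · rintro ⟨_, ⟨P, hP, rfl⟩, rfl⟩
      exact hP
    · intro hP'
      have h3 : ((cs x⁻¹ P').comap I.j).map I.j = cs x⁻¹ P' := by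
        rw [Subgroup.map_comap_eq_self]
        intro y hy
        rw [mem_cs, inv_inv] at hy
        obtain ⟨g, hg⟩ := hv _ ((le_sSup hP' : P' ≤ sSup C') hy)
        refine ⟨g, ?_⟩
        rw [hg]
        change x⁻¹ * (x * y * x⁻¹) * x = y
        group
      refine ⟨((cs x⁻¹ P').comap I.j).map I.j, ⟨(cs x⁻¹ P').comap I.j, ?_, rfl⟩, ?_⟩
      · change cs x (((cs x⁻¹ P').comap I.j).map I.j) ∈ C'
        rwa [h3, cs_cs_inv]
      · change cs x (((cs x⁻¹ P').comap I.j).map I.j) = P'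
        rw [h3, cs_cs_inv]
  refine ⟨x, C, hx, ?_, ?_, ?_⟩
  · obtain ⟨P', hP'⟩ := hC'
    have h3 : P' ∈ cs x '' I.jS C := by
      have h4 := hx
      unfold Cj at h4
      rwa [h4]
    obtain ⟨_, ⟨P, hP, rfl⟩, -⟩ := h3
    exact ⟨P, hP⟩
  · have h3 : IsPGroup p (sSup (I.jS C) : Subgroup X) := by
      have h4 := hx.inv.sSup
      rw [h4]
      exact hT'.map _
    rw [I.sSup_jS] at h3
    have h5 := h3.comap_of_injective I.j I.j_inj
    rwa [Subgroup.comap_map_eq_self_of_injective I.j_inj] at h5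
  · intro h3
    apply hqne
    have h4 : cj x⁻¹ (cj q.out (I.ep u * I.io b)) = I.ep u * I.io b := by
      rw [← hxe, ← cj_mul, inv_mul_cancel, cj_one]
    have h5 : me k (kck hx.inv) (w' * bq C' (cj q.out (I.ep u * I.io b))) = 0 := by
      rw [map_mul, ← bq_kck hx.inv, h4, h3]
    exact (me k (kck hx.inv)).injective (by rw [h5, map_zero])

end main

section inj

variable {p : ℕ} [hp : Fact p.Prime] {k X V G : Type} [Field k] [CharP k p] [Group X]
  [CommGroup V] [Group G] [Fintype X] [Fintype V] [Finite G] (I : Ind k X V G)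
  (hV : ¬ p ∣ Nat.card V) {u : k} (hu : u * (Fintype.card V : k) = 1)
  {C₁ C₂ : Set (Subgroup G)} (hC₁ : C₁.Nonempty) (hC₂ : C₂.Nonempty)
  (hT₁ : IsPGroup p (sSup C₁ : Subgroup G)) (hT₂ : IsPGroup p (sSup C₂ : Subgroup G))

theorem lev_i (v : I.V0 (sSup C₁)) : (I.lev C₁ hC₁ hT₁ hV).i v =
    pk (I.jS C₁) ⟨I.i (v : V), by
      have := I.form_mem_NC v.2 (NC C₁).one_mem
      rwa [map_one, mul_one] at this⟩ := rfl

theorem lev_j (g : NC C₁) : (I.lev C₁ hC₁ hT₁ hV).j (pk C₁ g) =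
    pk (I.jS C₁) ⟨I.j (g : G), by
      have := I.form_mem_NC (I.V0 (sSup C₁)).one_mem g.2
      rwa [map_one, one_mul] at this⟩ := quo_j _ _ _ _ _ _ _ _ _

theorem act_V0 {y : X} (hy : Cj y (I.jS C₁) (I.jS C₂)) {v : V} (hv : v ∈ I.V0 (sSup C₁)) :
    I.act y v ∈ I.V0 (sSup C₂) := by
  intro d hd
  have h1 : I.j d ∈ sSup (I.jS C₂) := by
    rw [I.sSup_jS]
    exact ⟨d, hd, rfl⟩
  rw [hy.sSup, mem_cs, I.sSup_jS] at h1
  obtain ⟨d', hd', h2⟩ := h1
  change I.j d' = _ at h2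
  have h3 : I.j d * y = y * I.j d' := by
    rw [h2]
    group
  rw [← MulAut.mul_apply, ← map_mul, h3, map_mul, MulAut.mul_apply, hv d' hd']

include hT₁ hV in
/-- the element is in the stabiliser -/
theorem mem_Y_of {y : X} (hy : Cj y (I.jS C₁) (I.jS C₂))
    (h : ∀ v ∈ I.V0 (sSup C₁), I.lam (I.act y v) = I.lam v) : y ∈ I.Y := by
  rw [I.mem_Y_iff]
  intro v
  let μ : V →* kˣ := (I.lam.comp (I.act y).toMonoidHom) / I.lam
  have hμ : ∀ v, μ v = I.lam (I.act y v) / I.lam v := fun v => rfl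
  have h1 : μ v = 1 := by
    refine I.char_trivial (sSup C₁) hT₁ hV μ ?_ ?_ v
    · intro d hd v
      have h2 : y * I.j d * y⁻¹ ∈ sSup (I.jS C₂) := by
        rw [hy.sSup, cs_mem, I.sSup_jS]
        exact ⟨d, hd, rfl⟩
      rw [I.sSup_jS] at h2
      obtain ⟨d', hd', h3⟩ := h2
      change I.j d' = _ at h3
      have h4 : y * I.j d = I.j d' * y := by
        rw [h3]
        group
      have h6 : I.act y (I.act (I.j d) v) = I.act (I.j d') (I.act y v) := by
        rw [← MulAut.mul_apply, ← map_mul, h4, map_mul, MulAut.mul_apply]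
      rw [hμ, hμ, h6, I.lam_act (I.j_mem d'), I.lam_act (I.j_mem d)]
    · intro v hv
      rw [hμ, div_eq_one]
      exact h v hv
  rw [hμ, div_eq_one] at h1
  exact h1

/-- the idempotent under conjugation -/
theorem me_ep {g : G} (hg : Cj g C₁ C₂) :
    me k (kck (I.cj_j hg)) ((I.lev C₁ hC₁ hT₁ hV).ep u) = (I.lev C₂ hC₂ hT₂ hV).ep u := by
  unfold ep
  rw [map_sum]
  have hg' := I.cj_j hg
  let f : I.V0 (sSup C₁) → I.V0 (sSup C₂) := fun v => ⟨I.act (I.j g) v, I.act_V0 hg' v.2⟩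
  have hinv : ∀ v : V, I.act (I.j g)⁻¹ (I.act (I.j g) v) = v := by
    intro v
    rw [← MulAut.mul_apply, ← map_mul, inv_mul_cancel, map_one]
    rfl
  have hinv' : ∀ v : V, I.act (I.j g) (I.act (I.j g)⁻¹ v) = v := by
    intro v
    rw [← MulAut.mul_apply, ← map_mul, mul_inv_cancel, map_one]
    rfl
  have hf : Function.Bijective f := by
    constructor
    · intro v w h
      have h1 : I.act (I.j g) v = I.act (I.j g) w := congrArg Subtype.val h
      exact Subtype.ext ((I.act (I.j g)).injective h1)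
    · intro w
      exact ⟨⟨I.act (I.j g)⁻¹ w, I.act_V0 hg'.inv w.2⟩, Subtype.ext (hinv' _)⟩
  refine Fintype.sum_bijective f hf _ _ fun v => ?_
  rw [me_single]
  congr 1
  · rw [lev_i, lev_i, kck_pk]
    congr 1
    apply Subtype.ext
    change I.j g * I.i (v : V) * (I.j g)⁻¹ = I.i (I.act (I.j g) v)
    rw [I.act_spec]
  · congr 1
    change ((I.lam ((v : V)⁻¹) : kˣ) : k) = ((I.lam ((I.act (I.j g) v)⁻¹) : kˣ) : k)
    rw [← map_inv, I.lam_act (I.j_mem g)]

theorem me_io {g : G} (hg : Cj g C₁ C₂) (w : MonoidAlgebra k (KC C₁)) :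
    me k (kck (I.cj_j hg)) ((I.lev C₁ hC₁ hT₁ hV).io w) =
      (I.lev C₂ hC₂ hT₂ hV).io (me k (kck hg) w) := by
  induction w using MonoidAlgebra.induction_linear with
  | zero => simp
  | add a b ha hb => rw [map_add, map_add, map_add, map_add, ha, hb]
  | single c r =>
    obtain ⟨n, rfl⟩ := pk_surj C₁ c
    rw [me_single, io_single, io_single, me_single, kck_pk, lev_j, lev_j, kck_pk]
    congr 2
    apply Subtype.ext
    change I.j g * I.j (n : G) * (I.j g)⁻¹ = I.j (g * n * g⁻¹)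
    rw [map_mul, map_mul, map_inv]

include hu in
/-- the correspondence maps conjugate pairs to conjugate pairs -/
theorem cor_wd {g : G} (hg : Cj g C₁ C₂) {w₁ : MonoidAlgebra k (KC C₁)}
    {w₂ : MonoidAlgebra k (KC C₂)} (hw₁ : IsBlock w₁) (h : me k (kck hg) w₁ = w₂) :
    me k (kck (I.cj_j hg)) ((I.lev C₁ hC₁ hT₁ hV).cen u w₁) = (I.lev C₂ hC₂ hT₂ hV).cen u w₂ := by
  subst h
  have hu1 := I.u_V0 hV hu hT₁
  have hu2 := I.u_V0 hV hu hT₂
  have hw₂ := me_isBlock (kck hg) hw₁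
  have hA := me_isBlock (kck (I.cj_j hg)) ((I.lev C₁ hC₁ hT₁ hV).cen_isBlock hu1 hw₁)
  have hB := (I.lev C₂ hC₂ hT₂ hV).cen_isBlock hu2 hw₂
  have h1 : me k (kck (I.cj_j hg)) ((I.lev C₁ hC₁ hT₁ hV).cen u w₁) *
      (I.lev C₂ hC₂ hT₂ hV).ep u =
      (I.lev C₂ hC₂ hT₂ hV).ep u * (I.lev C₂ hC₂ hT₂ hV).io (me k (kck hg) w₁) := by
    rw [← I.me_ep hV hC₁ hC₂ hT₁ hT₂ hg, ← map_mul,
      (I.lev C₁ hC₁ hT₁ hV).cen_ep hu1 hw₁.central, map_mul, I.me_ep hV hC₁ hC₂ hT₁ hT₂ hg,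
      I.me_io hV hC₁ hC₂ hT₁ hT₂ hg]
  refine block_eq hA hB ?_
  intro h2
  have h3 : (I.lev C₂ hC₂ hT₂ hV).ep u * (I.lev C₂ hC₂ hT₂ hV).io (me k (kck hg) w₁) =
      (I.lev C₂ hC₂ hT₂ hV).ep u * (I.lev C₂ hC₂ hT₂ hV).io 0 := by
    rw [map_zero, mul_zero, ← zero_mul ((I.lev C₂ hC₂ hT₂ hV).ep u), ← h2, mul_assoc,
      (I.lev C₂ hC₂ hT₂ hV).cen_ep hu2 hw₂.central, ← mul_assoc, h1, mul_assoc, ← map_mul,
      hw₂.idem]
  exact hw₂.ne_zero ((I.lev C₂ hC₂ hT₂ hV).ep_io_inj hu2 h3)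

include hu in
/-- the correspondence is injective on the classes of pairs -/
theorem cor_inj {x : X} (hx : Cj x (I.jS C₁) (I.jS C₂)) {w₁ : MonoidAlgebra k (KC C₁)}
    {w₂ : MonoidAlgebra k (KC C₂)} (hw₁ : IsBlock w₁) (hw₂ : IsBlock w₂)
    (h : me k (kck hx) ((I.lev C₁ hC₁ hT₁ hV).cen u w₁) = (I.lev C₂ hC₂ hT₂ hV).cen u w₂) :
    ∃ (g : G) (hg : Cj g C₁ C₂), me k (kck hg) w₁ = w₂ := by
  have hu1 := I.u_V0 hV hu hT₁
  have hu2 := I.u_V0 hV hu hT₂
  set L₁ := I.lev C₁ hC₁ hT₁ hV with hL₁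
  set L₂ := I.lev C₂ hC₂ hT₂ hV with hL₂
  set E := me k (kck hx) (L₁.ep u) with hE
  have hc1 : L₁.cen u w₁ * L₁.ep u ≠ 0 := by
    intro h0
    rw [L₁.cen_ep hu1 hw₁.central] at h0
    exact hw₁.ne_zero (L₁.ep_io_inj hu1 (by rw [h0, map_zero, mul_zero]))
  have hc2 : L₂.cen u w₂ * E ≠ 0 := by
    rw [← h, hE, ← map_mul]
    intro h0
    exact hc1 ((me k (kck hx)).injective (by rw [h0, map_zero]))
  obtain ⟨q, hq⟩ : ∃ q : L₂.Q, L₂.ep u * el k q.out⁻¹ * E ≠ 0 := by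
    by_contra hcon
    push Not at hcon
    apply hc2
    rw [L₂.cen_eq, Finset.sum_mul]
    refine Finset.sum_eq_zero fun q _ => ?_
    calc el k q.out * L₂.ep u * L₂.io w₂ * el k q.out⁻¹ * E =
        el k q.out * (L₂.ep u * L₂.io w₂) * el k q.out⁻¹ * E := by simp only [mul_assoc]
      _ = el k q.out * (L₂.io w₂ * L₂.ep u) * el k q.out⁻¹ * E := by rw [L₂.io_ep]
      _ = el k q.out * L₂.io w₂ * (L₂.ep u * el k q.out⁻¹ * E) := by simp only [mul_assoc]
      _ = 0 := by rw [hcon, mul_zero]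
  obtain ⟨n, hn⟩ := pk_surj (I.jS C₂) q.out
  rw [← hn, ← map_inv] at hq
  -- the element `y`
  have hnC : Cj (n : X) (I.jS C₂) (I.jS C₂) := Cj.of_mem n.2
  have hy : Cj (x⁻¹ * (n : X)) (I.jS C₂) (I.jS C₁) := hnC.comp hx.inv
  have hlam : ∀ v ∈ I.V0 (sSup C₂), I.lam (I.act (x⁻¹ * (n : X)) v) = I.lam v := by
    intro v hv
    have hv1 := I.act_V0 hy hv
    -- the element of the quotient
    have h1 : L₂.ep u * el k (L₂.i ⟨v, hv⟩) = ((I.lam v : kˣ) : k) • L₂.ep u := L₂.ep_i u ⟨v, hv⟩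
    have h2 : el k (kck hx (L₁.i ⟨_, hv1⟩)) * E =
        ((I.lam (I.act (x⁻¹ * (n : X)) v) : kˣ) : k) • E := by
      have h0 : el k (kck hx (L₁.i ⟨_, hv1⟩)) = me k (kck hx) (el k (L₁.i ⟨_, hv1⟩)) :=
        (me_single _ _ _).symm
      rw [hE, h0, ← map_mul]
      have := L₁.i_ep u ⟨_, hv1⟩
      change el k (L₁.i ⟨_, hv1⟩) * L₁.ep u = ((I.lam (I.act (x⁻¹ * (n : X)) v) : kˣ) : k) • _ at this
      rw [this, map_smul]
    have h3 : L₂.i ⟨v, hv⟩ * pk (I.jS C₂) n⁻¹ =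
        pk (I.jS C₂) n⁻¹ * kck hx (L₁.i ⟨_, hv1⟩) := by
      rw [hL₁, hL₂, lev_i, lev_i, kck_pk, ← map_mul, ← map_mul]
      congr 1
      apply Subtype.ext
      change I.i v * (n : X)⁻¹ = (n : X)⁻¹ * (x * I.i (I.act (x⁻¹ * (n : X)) v) * x⁻¹)
      rw [I.act_spec]
      group
    have h4 : ((I.lam v : kˣ) : k) • (L₂.ep u * el k (pk (I.jS C₂) n⁻¹) * E) =
        ((I.lam (I.act (x⁻¹ * (n : X)) v) : kˣ) : k) •
          (L₂.ep u * el k (pk (I.jS C₂) n⁻¹) * E) := by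
      calc ((I.lam v : kˣ) : k) • (L₂.ep u * el k (pk (I.jS C₂) n⁻¹) * E)
          = (((I.lam v : kˣ) : k) • L₂.ep u) * el k (pk (I.jS C₂) n⁻¹) * E := by
            rw [smul_mul_assoc, smul_mul_assoc]
        _ = L₂.ep u * (el k (L₂.i ⟨v, hv⟩) * el k (pk (I.jS C₂) n⁻¹)) * E := by
            rw [← h1]
            simp only [mul_assoc]
        _ = L₂.ep u * (el k (pk (I.jS C₂) n⁻¹) * el k (kck hx (L₁.i ⟨_, hv1⟩))) * E := by
            rw [el_mul, h3, ← el_mul]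
        _ = L₂.ep u * el k (pk (I.jS C₂) n⁻¹) * (el k (kck hx (L₁.i ⟨_, hv1⟩)) * E) := by
            simp only [mul_assoc]
        _ = _ := by rw [h2, mul_smul_comm]
    apply Units.ext
    have h5 : (((I.lam v : kˣ) : k) - ((I.lam (I.act (x⁻¹ * (n : X)) v) : kˣ) : k)) •
        (L₂.ep u * el k (pk (I.jS C₂) n⁻¹) * E) = 0 := by
      rw [sub_smul, h4, sub_self]
    exact (sub_eq_zero.mp ((smul_eq_zero.mp h5).resolve_right hq)).symm
  have hyY := I.mem_Y_of hV hT₂ hy hlam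
  obtain ⟨a, g', hag⟩ := hyY
  have hy' : Cj (I.i a * I.j g') (I.jS C₂) (I.jS C₁) := by rw [hag]; exact hy
  obtain ⟨hg', ha⟩ := I.cj_form hy'
  have hg := hg'.inv
  refine ⟨g'⁻¹, hg, ?_⟩
  -- decomposition of `x`
  have haN : (I.i a)⁻¹ ∈ NC (I.jS C₁) := by
    have := I.form_mem_NC ha (NC C₁).one_mem
    rw [map_one, mul_one] at this
    exact Subgroup.inv_mem _ this
  have hxe : x = (n : X) * (I.j g'⁻¹ * (I.i a)⁻¹) := by
    have h1 : x⁻¹ * (n : X) = I.i a * I.j g' := hag.symm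
    have h2 : x = (n : X) * (x⁻¹ * (n : X))⁻¹ := by group
    rw [h2, h1, map_inv]
    group
  have hj := I.cj_j hg
  have h1 : Cj (I.j g'⁻¹ * (I.i a)⁻¹) (I.jS C₁) (I.jS C₂) := (Cj.of_mem haN).comp hj
  have hcen1 := L₁.cen_comm hu1 hw₁.central
  have h2 : me k (kck hx) (L₁.cen u w₁) = me k (kck hj) (L₁.cen u w₁) := by
    subst hxe
    rw [kck_comp h1 hnC hx, kck_comp (Cj.of_mem haN) hj h1,
      me_kck_central haN (Cj.of_mem haN) hcen1, me_kck_central n.2 hnC]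
    intro b
    obtain ⟨b', rfl⟩ := (me k (kck hj)).surjective b
    rw [← map_mul, hcen1, map_mul]
  have h3 : L₂.ep u * L₂.io (me k (kck hg) w₁) = L₂.ep u * L₂.io w₂ := by
    rw [← I.me_io hV hC₁ hC₂ hT₁ hT₂ hg, ← L₂.cen_ep hu2 hw₂.central, ← h, h2, hL₂,
      ← I.me_ep hV hC₁ hC₂ hT₁ hT₂ hg (u := u), ← map_mul, ← map_mul,
      (I.lev C₁ hC₁ hT₁ hV).cen_ep hu1 hw₁.central]
  exact L₂.ep_io_inj hu2 h3

end inj

end Ind

end Pool.Agent.H373.BU
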