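import Pool.Agent.H373.CH.F4

/-!
# Sums over the classes of chains
-/

set_option autoImplicit false
set_option linter.unusedSectionVars false
set_option linter.style.haveILetI false

open scoped BigOperators Classical

noncomputable section

namespace Pool.Agent.H373.BU

open MonoidAlgebra

section fin

variable {k G : Type} [Field k] [Group G] [Finite G]

theorem block_orth {e f : MonoidAlgebra k G} (he : IsBlock e) (hf : IsBlock f) (h : e ≠ f) :
    e * f = 0 := by
  by_contra h1
  apply h
  have h2 : e * f = f := (hf.primitive e he.idem he.central).resolve_left h1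
  have h3 : f * e = e := (he.primitive f hf.idem hf.central).resolve_left (by
    rw [hf.central]
    exact h1)
  rw [← h3, hf.central, h2]

theorem block_li : LinearIndependent k
    (fun w : {w : MonoidAlgebra k G // IsBlock w} => (w : MonoidAlgebra k G)) := by
  rw [linearIndependent_iff']
  intro s g hg i hi
  have h1 : (i : MonoidAlgebra k G) * ∑ j ∈ s, g j • (j : MonoidAlgebra k G) = 0 := by
    rw [hg, mul_zero]
  rw [Finset.mul_sum, Finset.sum_eq_single i] at h1
  · rw [mul_smul_comm, i.2.idem] at h1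
    exact (smul_eq_zero.mp h1).resolve_right i.2.ne_zero
  · intro j _ hj
    rw [mul_smul_comm, block_orth i.2 j.2 fun h => hj (Subtype.ext h.symm), smul_zero]
  · intro h
    exact absurd hi h

instance finite_blocks : Finite {w : MonoidAlgebra k G // IsBlock w} := by
  haveI : FiniteDimensional k (MonoidAlgebra k G) := by
    haveI := Fintype.ofFinite G
    exact inferInstance
  exact block_li.finite_of_isNoetherian

instance finite_SB (C : Set (Subgroup G)) (b : MonoidAlgebra k G) : Finite (SB C b) :=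
  Finite.of_injective (fun w => (⟨w.1, w.2.1⟩ : {w : MonoidAlgebra k (KC C) // IsBlock w}))
    fun _ _ h => Subtype.ext (congrArg (fun w => w.1) h)

end fin

section sums

variable {k G : Type} [Field k] [Group G]

/-- the classes of the sets of subgroups in a family -/
def cjs (F : Set (Set (Subgroup G))) : Setoid F where
  r C₁ C₂ := ∃ g, Cj g (C₁ : Set (Subgroup G)) C₂
  iseqv :=
    { refl := fun C => ⟨1, Cj.one C.1⟩
      symm := fun ⟨g, h⟩ => ⟨g⁻¹, h.inv⟩
      trans := fun ⟨g, h⟩ ⟨g', h'⟩ => ⟨g' * g, h.comp h'⟩ }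

/-- the pairs -/
def PS (F : Set (Set (Subgroup G))) (b : MonoidAlgebra k G) : Type :=
  Σ C : F, SB (C : Set (Subgroup G)) b

/-- conjugate pairs -/
def pcj {F : Set (Set (Subgroup G))} {b : MonoidAlgebra k G} (s t : PS F b) : Prop :=
  ∃ (g : G) (h : Cj g (s.1 : Set (Subgroup G)) t.1),
    me k (kck h) (s.2 : MonoidAlgebra k (KC (s.1 : Set (Subgroup G)))) = t.2

theorem me_kck_one {C : Set (Subgroup G)} (h : Cj 1 C C) (a : MonoidAlgebra k (KC C)) :
    me k (kck h) a = a := by
  rw [me_kck_self (1 : NC C) h, map_one, cj_one]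

/-- the classes of the pairs -/
def pcs (F : Set (Set (Subgroup G))) (b : MonoidAlgebra k G) : Setoid (PS F b) where
  r := pcj
  iseqv :=
    { refl := fun s => ⟨1, Cj.one _, me_kck_one _ _⟩
      symm := by
        rintro s t ⟨g, h, e⟩
        exact ⟨g⁻¹, h.inv, by rw [← e, kck_inv]⟩
      trans := by
        rintro s t r ⟨g, h, e⟩ ⟨g', h', e'⟩
        exact ⟨g' * g, h.comp h', by rw [kck_comp h h' (h.comp h'), e, e']⟩ }

variable [Finite G] {M : Type} [AddCommMonoid M]

instance (F : Set (Set (Subgroup G))) (b : MonoidAlgebra k G) : Finite (PS F b) :=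
  inferInstanceAs (Finite (Σ C : F, SB (C : Set (Subgroup G)) b))

/-- the sum over the classes of chains -/
def chSum (F : Set (Set (Subgroup G))) (b : MonoidAlgebra k G)
    (f : ∀ C : Set (Subgroup G), MonoidAlgebra k (KC C) → M) : M :=
  ∑ᶠ c : Quotient (cjs F), ∑ᶠ w : SB (c.out : Set (Subgroup G)) b, f c.out w

theorem chSum_eq (F : Set (Set (Subgroup G)))
    (hF : ∀ C ∈ F, ∀ g, Cj g C C → g ∈ NC C) {b : MonoidAlgebra k G}
    (hb : ∀ a, b * a = a * b)
    (f : ∀ C : Set (Subgroup G), MonoidAlgebra k (KC C) → M)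
    (hf : ∀ (g : G) (C₁ C₂ : Set (Subgroup G)) (h : Cj g C₁ C₂) (w : MonoidAlgebra k (KC C₁)),
      IsBlock w → f C₂ (me k (kck h) w) = f C₁ w) :
    chSum F b f = ∑ᶠ o : Quotient (pcs F b), f o.out.1 o.out.2 := by
  haveI := Fintype.ofFinite (Quotient (cjs F))
  haveI : ∀ C : Set (Subgroup G), Fintype (SB C b) := fun C => Fintype.ofFinite _
  haveI : Finite (Quotient (pcs F b)) := Quotient.finite _
  have h1 : chSum F b f =
      ∑ᶠ t : (Σ c : Quotient (cjs F), SB (c.out : Set (Subgroup G)) b), f t.1.out t.2 := by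
    unfold chSum
    rw [finsum_eq_sum_of_fintype, finsum_eq_sum_of_fintype, Fintype.sum_sigma]
    refine Finset.sum_congr rfl fun c _ => ?_
    rw [finsum_eq_sum_of_fintype]
  rw [h1]
  let e : (Σ c : Quotient (cjs F), SB (c.out : Set (Subgroup G)) b) → Quotient (pcs F b) :=
    fun t => Quotient.mk (pcs F b) ⟨t.1.out, t.2⟩
  refine finsum_eq_of_bijective e ⟨?_, ?_⟩ ?_
  · rintro ⟨c, w⟩ ⟨c', w'⟩ h
    obtain ⟨g, hg, hw⟩ := Quotient.exact h
    have hcc : c = c' := by
      rw [← Quotient.out_eq c, ← Quotient.out_eq c']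
      exact Quotient.sound ⟨g, hg⟩
    subst hcc
    have hg' : g ∈ NC (c.out : Set (Subgroup G)) := hF _ c.out.2 g hg
    have h2 : w = w' := by
      apply Subtype.ext
      have h3 := me_kck_central hg' hg w.2.1.central
      exact h3.symm.trans hw
    rw [h2]
  · intro o
    induction o using Quotient.inductionOn with
    | h s =>
      obtain ⟨C, w⟩ := s
      have h3 : (cjs F).r C (Quotient.out (Quotient.mk (cjs F) C)) :=
        Quotient.exact (Quotient.out_eq _).symm
      obtain ⟨g, hg⟩ := h3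
      refine ⟨⟨Quotient.mk (cjs F) C, ⟨me k (kck hg) w, SB_kck hg hb w.2⟩⟩, ?_⟩
      symm
      exact Quotient.sound ⟨g, hg, rfl⟩
  · rintro ⟨c, w⟩
    have h2 : (pcs F b).r ⟨c.out, w⟩ (Quotient.out (Quotient.mk (pcs F b) ⟨c.out, w⟩)) :=
      Quotient.exact (Quotient.out_eq _).symm
    obtain ⟨g, hg, hw⟩ := h2
    change f c.out w = _
    rw [← hf g _ _ hg w w.2.1, hw]

end sums

end Pool.Agent.H373.BU
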