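import Pool.Agent.H373.CH.F5

/-!
# The sums for `G` and for `X` agree
-/

set_option autoImplicit false
set_option linter.unusedSectionVars false
set_option linter.style.haveILetI false

open scoped BigOperators Classical

noncomputable section

namespace Pool.Agent.H373.BU

open MonoidAlgebra

theorem kck_inv' {R G : Type} [CommRing R] [Group G] {g : G} {C₁ C₂ : Set (Subgroup G)}
    (h1 : Cj g C₁ C₂) (h2 : Cj g⁻¹ C₂ C₁) (a : MonoidAlgebra R (KC C₂)) :
    me R (kck h1) (me R (kck h2) a) = a := by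
  apply (me R (kck h2)).injective
  rw [kck_inv]

namespace Ind

variable {p : ℕ} [hp : Fact p.Prime] {k X V G : Type} [Field k] [CharP k p] [Group X]
  [CommGroup V] [Group G] [Fintype X] [Fintype V] [Finite G] (I : Ind k X V G)
  (hV : ¬ p ∣ Nat.card V) {u : k} (hu : u * (Fintype.card V : k) = 1)
  {FG : Set (Set (Subgroup G))} {FX : Set (Set (Subgroup X))}
  (hG : ∀ C ∈ FG, C.Nonempty ∧ IsPGroup p (sSup C : Subgroup G))
  (hX : ∀ C ∈ FX, C.Nonempty ∧ IsPGroup p (sSup C : Subgroup X))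
  (hj : ∀ C, I.jS C ∈ FX ↔ C ∈ FG) (hXc : ∀ x C C', Cj x C C' → C ∈ FX → C' ∈ FX)
  {b : MonoidAlgebra k G} (hb : ∀ a, b * a = a * b) (hi : b * b = b)

/-- the correspondence of the pairs -/
def phi (s : PS FG b) : PS FX (I.cen u b) :=
  ⟨⟨I.jS s.1, (hj _).mpr s.1.2⟩, ⟨(I.lev s.1 (hG _ s.1.2).1 (hG _ s.1.2).2 hV).cen u s.2,
    I.cor_mem hV hu (hG _ s.1.2).1 (hG _ s.1.2).2 hb hi s.2.2⟩⟩

theorem phi_wd (s t : PS FG b) (h : (pcs FG b).r s t) :
    (pcs FX (I.cen u b)).r (I.phi hV hu hG hj hb hi s) (I.phi hV hu hG hj hb hi t) := by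
  obtain ⟨g, hg, hw⟩ := h
  exact ⟨I.j g, I.cj_j hg, I.cor_wd hV hu (hG _ s.1.2).1 (hG _ t.1.2).1 (hG _ s.1.2).2
    (hG _ t.1.2).2 hg s.2.2.1 hw⟩

/-- the correspondence of the classes of the pairs -/
def phiQ : Quotient (pcs FG b) → Quotient (pcs FX (I.cen u b)) :=
  Quotient.map (sa := pcs FG b) (sb := pcs FX (I.cen u b)) (I.phi hV hu hG hj hb hi)
    (I.phi_wd hV hu hG hj hb hi)

include hX hXc in
theorem phiQ_bij : Function.Bijective (I.phiQ hV hu hG hj hb hi) := by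
  constructor
  · intro a b'
    induction a using Quotient.inductionOn with
    | h s =>
      induction b' using Quotient.inductionOn with
      | h t =>
        intro h
        obtain ⟨x, hx, hw⟩ := Quotient.exact h
        obtain ⟨g, hg, hw'⟩ := I.cor_inj hV hu (hG _ s.1.2).1 (hG _ t.1.2).1 (hG _ s.1.2).2
          (hG _ t.1.2).2 hx s.2.2.1 t.2.2.1 hw
        exact Quotient.sound ⟨g, hg, hw'⟩
  · intro a
    induction a using Quotient.inductionOn with
    | h t =>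
      obtain ⟨⟨C', hC'⟩, ⟨w', hw'⟩⟩ := t
      obtain ⟨x, C, hx, hCn, hCT, hne⟩ := I.anchor hV hu hb (hX _ hC').1 (hX _ hC').2 hw'
      obtain ⟨w, hw, hww⟩ := I.cor_surj hV hu hCn hCT hb hi (me_isBlock _ hw'.1) hne
      have hC : C ∈ FG := (hj C).mp (hXc _ _ _ hx.inv hC')
      refine ⟨Quotient.mk _ ⟨⟨C, hC⟩, ⟨w, hw⟩⟩, ?_⟩
      refine Quotient.sound ⟨x, hx, ?_⟩
      change me k (kck hx) ((I.lev C _ _ hV).cen u w) = w'
      rw [hww, kck_inv']

include hX hj hXc hu hi hb in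
theorem chSum_transfer {M : Type} [AddCommMonoid M]
    (hFG : ∀ C ∈ FG, ∀ g, Cj g C C → g ∈ NC C) (hFX : ∀ C ∈ FX, ∀ g, Cj g C C → g ∈ NC C)
    (f : ∀ C : Set (Subgroup G), MonoidAlgebra k (KC C) → M)
    (f' : ∀ C : Set (Subgroup X), MonoidAlgebra k (KC C) → M)
    (hf : ∀ (g : G) (C₁ C₂ : Set (Subgroup G)) (h : Cj g C₁ C₂) (w : MonoidAlgebra k (KC C₁)),
      IsBlock w → f C₂ (me k (kck h) w) = f C₁ w)
    (hf' : ∀ (g : X) (C₁ C₂ : Set (Subgroup X)) (h : Cj g C₁ C₂) (w : MonoidAlgebra k (KC C₁)),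
      IsBlock w → f' C₂ (me k (kck h) w) = f' C₁ w)
    (hff : ∀ (C : Set (Subgroup G)) (hC : C ∈ FG) (w : MonoidAlgebra k (KC C)), IsBlock w →
      f' (I.jS C) ((I.lev C (hG _ hC).1 (hG _ hC).2 hV).cen u w) = f C w) :
    chSum FX (I.cen u b) f' = chSum FG b f := by
  rw [chSum_eq FX hFX (I.cen_comm hu hb) f' hf', chSum_eq FG hFG hb f hf]
  symm
  refine finsum_eq_of_bijective (I.phiQ hV hu hG hj hb hi)
    (I.phiQ_bij hV hu hG hX hj hXc hb hi) fun o => ?_
  induction o using Quotient.inductionOn with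
  | h s =>
    have h1 : (pcs FG b).r s (Quotient.out (Quotient.mk (pcs FG b) s)) :=
      Quotient.exact (Quotient.out_eq _).symm
    have h2 : (pcs FX (I.cen u b)).r (I.phi hV hu hG hj hb hi s)
        (Quotient.out (I.phiQ hV hu hG hj hb hi (Quotient.mk (pcs FG b) s))) :=
      Quotient.exact (Quotient.out_eq _).symm
    obtain ⟨g, hg, hw⟩ := h1
    obtain ⟨x, hx, hw'⟩ := h2
    rw [← hw, ← hw', hf g _ _ hg _ s.2.2.1, hf' x _ _ hx _ (I.phi hV hu hG hj hb hi s).2.2.1]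
    exact (hff _ s.1.2 _ s.2.2.1).symm

end Ind

end Pool.Agent.H373.BU
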