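import Mathlib

/-!
# The number of simple modules of a ring
-/

set_option autoImplicit false
set_option linter.unusedSectionVars false
set_option linter.style.haveILetI false

open CategoryTheory Limits

noncomputable section

namespace Pool.Agent.H373.BU

universe v u

theorem simple_map {C D : Type u} [Category.{v} C] [Category.{v} D] [HasZeroMorphisms C]
    [HasZeroMorphisms D] (F : C ⥤ D) [F.IsEquivalence] [F.PreservesZeroMorphisms] {X : C}
    (hX : Simple X) : Simple (F.obj X) := by
  constructor
  intro Z f hf
  let Y := F.objPreimage Z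
  let i : F.obj Y ≅ Z := F.objObjPreimageIso Z
  obtain ⟨g, hg⟩ := F.map_surjective (i.hom ≫ f)
  have hm : Mono g := by
    haveI : Mono (F.map g) := by
      rw [hg]
      exact mono_comp _ _
    exact F.mono_of_mono_map this
  have h1 : IsIso f ↔ IsIso g := by
    constructor
    · intro h
      haveI : IsIso (F.map g) := by
        rw [hg]
        exact inferInstance
      exact isIso_of_reflects_iso g F
    · intro h
      haveI : IsIso (i.hom ≫ f) := by
        rw [← hg]
        exact inferInstance
      exact IsIso.of_isIso_comp_left i.hom f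
  have h2 : f = 0 ↔ g = 0 := by
    constructor
    · intro h
      apply F.map_injective
      rw [hg, h, comp_zero, F.map_zero]
    · intro h
      have h3 : i.hom ≫ f = 0 := by rw [← hg, h, F.map_zero]
      have h4 : i.inv ≫ (i.hom ≫ f) = f := by simp
      rw [← h4, h3, comp_zero]
  rw [h1, Ne, h2]
  exact Simple.mono_isIso_iff_nonzero g

/-- The number `l(A)` of isomorphism classes of simple `A`-modules. -/
def nSimple (A : Type) [Ring A] : ℕ :=
  Nat.card {c : Quotient (isIsomorphicSetoid (ModuleCat.{0} A)) //
    ∃ S : ModuleCat.{0} A, IsSimpleModule A S ∧ Quotient.mk _ S = c}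

theorem nSimple_eq {A B : Type} [Ring A] [Ring B] (E : ModuleCat.{0} A ≌ ModuleCat.{0} B) :
    nSimple A = nSimple B := by
  have key : ∀ {A B : Type} [Ring A] [Ring B] (E : ModuleCat.{0} A ≌ ModuleCat.{0} B)
      (S : ModuleCat.{0} A), IsSimpleModule A S → IsSimpleModule B (E.functor.obj S) := by
    intro A B _ _ E S hS
    haveI : E.functor.PreservesZeroMorphisms := inferInstance
    exact (simple_iff_isSimpleModule' _).mp
      (simple_map E.functor ((simple_iff_isSimpleModule' S).mpr hS))
  have hw : ∀ {A B : Type} [Ring A] [Ring B] (E : ModuleCat.{0} A ≌ ModuleCat.{0} B),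
      ∀ S T : ModuleCat.{0} A, (isIsomorphicSetoid (ModuleCat.{0} A)).r S T →
        (isIsomorphicSetoid (ModuleCat.{0} B)).r (E.functor.obj S) (E.functor.obj T) := by
    rintro A B _ _ E S T ⟨i⟩
    exact ⟨E.functor.mapIso i⟩
  refine Nat.card_congr
    { toFun := fun c => ⟨Quotient.map (sa := isIsomorphicSetoid _) (sb := isIsomorphicSetoid _)
        E.functor.obj (hw E) c.1, by
          obtain ⟨c, S, hS, rfl⟩ := c
          exact ⟨_, key E S hS, rfl⟩⟩
      invFun := fun c => ⟨Quotient.map (sa := isIsomorphicSetoid _) (sb := isIsomorphicSetoid _)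
        E.symm.functor.obj (hw E.symm) c.1, by
          obtain ⟨c, S, hS, rfl⟩ := c
          exact ⟨_, key E.symm S hS, rfl⟩⟩
      left_inv := ?_
      right_inv := ?_ }
  · rintro ⟨c, S, hS, rfl⟩
    apply Subtype.ext
    exact Quotient.sound ⟨(E.unitIso.app S).symm⟩
  · rintro ⟨c, S, hS, rfl⟩
    apply Subtype.ext
    exact Quotient.sound ⟨E.counitIso.app S⟩

end Pool.Agent.H373.BU
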