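import Pool.Agent.H373.CH.F6
import Pool.Agent.H373.CH.L1
import Pool.Agent.H373.BU.C2

/-!
# Weights
-/

set_option autoImplicit false
set_option linter.unusedSectionVars false
set_option linter.style.haveILetI false

open scoped BigOperators Classical

noncomputable section

namespace Pool.Agent.H373.BU

open MonoidAlgebra

section defs

/-- The number `z(kHc)` of the blocks `w` of `kH` of defect zero (i.e. which lie in the image of the
relative trace from the trivial subgroup) with `c w = w`. -/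
def zc {k H : Type} [Field k] [Group H] (c : MonoidAlgebra k H) : ℕ :=
  Nat.card {w : MonoidAlgebra k H // IsBlock w ∧ IsTr ⊥ w ∧ c * w = w}

/-- The group `N_G(Q) / Q`. -/
def NQ {G : Type} [Group G] (Q : Subgroup G) : Type :=
  Subgroup.normalizer (Q : Set G) ⧸ Q.subgroupOf (Subgroup.normalizer (Q : Set G))

instance {G : Type} [Group G] (Q : Subgroup G) : Group (NQ Q) :=
  inferInstanceAs (Group (Subgroup.normalizer (Q : Set G) ⧸
    Q.subgroupOf (Subgroup.normalizer (Q : Set G))))

instance {G : Type} [Group G] [Finite G] (Q : Subgroup G) : Finite (NQ Q) :=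
  inferInstanceAs (Finite (Subgroup.normalizer (Q : Set G) ⧸
    Q.subgroupOf (Subgroup.normalizer (Q : Set G))))

/-- The image `Br_Q(b)` of `b` under the Brauer homomorphism, as an element of `k N_G(Q)`. -/
def brN {k G : Type} [Field k] [Group G] (Q : Subgroup G) (b : MonoidAlgebra k G) :
    MonoidAlgebra k (Subgroup.normalizer (Q : Set G)) :=
  .ofCoeff ((b.coeff.comapDomain (fun n : Subgroup.normalizer (Q : Set G) => (n : G))
    Subtype.val_injective.injOn).filter fun n => (n : G) ∈ Subgroup.centralizer (Q : Set G))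

/-- The image of `Br_Q(b)` in `k[N_G(Q) / Q]`. -/
def brQ {k G : Type} [Field k] [Group G] (Q : Subgroup G) (b : MonoidAlgebra k G) :
    MonoidAlgebra k (NQ Q) :=
  MonoidAlgebra.mapDomainAlgHom k k
    (QuotientGroup.mk' (Q.subgroupOf (Subgroup.normalizer (Q : Set G)))) (brN Q b)

/-- Conjugacy of `p`-subgroups. -/
def conjP (p : ℕ) (G : Type) [Group G] : Setoid {Q : Subgroup G // IsPGroup p Q} where
  r Q Q' := ∃ g : G, Q.1.map (MulAut.conj g).toMonoidHom = Q'.1
  iseqv :=
    { refl := fun Q => ⟨1, cs_one Q.1⟩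
      symm := by
        rintro Q Q' ⟨g, h⟩
        exact ⟨g⁻¹, by rw [← h]; exact cs_inv_cs g Q.1⟩
      trans := by
        rintro Q Q' Q'' ⟨g, h⟩ ⟨g', h'⟩
        exact ⟨g' * g, by rw [← h', ← h]; exact cs_mul g' g Q.1⟩ }

/-- The number of `G`-orbits of weights of `kGb`: the sum of the numbers `z(k[N_G(Q)/Q] Br_Q(b))` over
representatives `Q` of the conjugacy classes of `p`-subgroups of `G`. -/
def wts (p : ℕ) {k G : Type} [Field k] [Group G] (b : MonoidAlgebra k G) : ℕ :=
  ∑ᶠ c : Quotient (conjP p G), zc (brQ c.out.1 b)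

end defs

section tr

variable {R A B : Type} [CommRing R] [Group A] [Group B] [Finite A] [Finite B]

theorem isTr_bot {e : MonoidAlgebra R A} :
    IsTr (⊥ : Subgroup A) e ↔ ∃ a, ∀ [Fintype A], e = ∑ x : A, cj x a := by
  rw [isTr_iff]
  have key : ∀ (a : MonoidAlgebra R A), ∀ [Fintype A] [Fintype (A ⧸ (⊥ : Subgroup A))],
      ∑ x : A ⧸ (⊥ : Subgroup A), cj x.out a = ∑ x : A, cj x a := by
    intro a _ _
    symm
    refine Fintype.sum_bijective (fun x : A => (QuotientGroup.mk x : A ⧸ (⊥ : Subgroup A)))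
      ⟨?_, ?_⟩ _ _ ?_
    · intro x y h
      have h1 := QuotientGroup.eq.mp h
      rw [Subgroup.mem_bot, inv_mul_eq_one] at h1
      exact h1
    · exact QuotientGroup.mk_surjective
    · intro x
      rw [cj_out (D := (⊥ : Subgroup A))]
      intro q hq
      rw [Subgroup.mem_bot] at hq
      rw [hq, cj_one]
  constructor
  · rintro ⟨a, -, ha⟩
    refine ⟨a, ?_⟩
    intro _
    haveI := Fintype.ofFinite (A ⧸ (⊥ : Subgroup A))
    rw [ha, key]
  · rintro ⟨a, ha⟩
    refine ⟨a, ?_, ?_⟩
    · intro q hq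
      rw [Subgroup.mem_bot] at hq
      rw [hq, cj_one]
    · intro _
      haveI := Fintype.ofFinite A
      rw [ha, key]

theorem me_isTr (f : A ≃* B) {e : MonoidAlgebra R A} (h : IsTr (⊥ : Subgroup A) e) :
    IsTr (⊥ : Subgroup B) (me R f e) := by
  rw [isTr_bot] at h ⊢
  obtain ⟨a, ha⟩ := h
  refine ⟨me R f a, ?_⟩
  intro _
  haveI := Fintype.ofFinite A
  rw [ha, map_sum]
  exact Fintype.sum_equiv f.toEquiv _ _ fun x => me_cj f x a

end tr

section zc

variable {k A B : Type} [Field k] [Group A] [Group B] [Finite A] [Finite B]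

theorem zc_me (f : A ≃* B) (c : MonoidAlgebra k A) : zc (me k f c) = zc c := by
  symm
  refine Nat.card_congr
    { toFun := fun w => ⟨me k f w.1, me_isBlock f w.2.1, me_isTr f w.2.2.1, by
        rw [← map_mul, w.2.2.2]⟩
      invFun := fun w => ⟨me k f.symm w.1, me_isBlock f.symm w.2.1, me_isTr f.symm w.2.2.1, by
        have h1 := congrArg (me k f.symm) w.2.2.2
        rw [map_mul, me_symm_me] at h1
        exact h1⟩
      left_inv := fun w => Subtype.ext (me_symm_me f w.1)
      right_inv := fun w => Subtype.ext (me_me_symm f w.1) }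

end zc

section bridge

variable {p : ℕ} {k G : Type} [Field k] [Group G] [Finite G]

/-- the singletons of `p`-subgroups -/
def sing (p : ℕ) (G : Type) [Group G] : Set (Set (Subgroup G)) :=
  {C | ∃ Q : Subgroup G, IsPGroup p Q ∧ C = {Q}}

theorem sing_prop {C : Set (Subgroup G)} (h : C ∈ sing p G) :
    C.Nonempty ∧ IsPGroup p (sSup C : Subgroup G) := by
  obtain ⟨Q, hQ, rfl⟩ := h
  refine ⟨⟨Q, rfl⟩, ?_⟩
  rw [sSup_singleton]
  exact hQ

theorem sing_conj {C C' : Set (Subgroup G)} {g : G} (h : Cj g C C') (hC : C ∈ sing p G) :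
    C' ∈ sing p G := by
  obtain ⟨Q, hQ, rfl⟩ := hC
  refine ⟨cs g Q, hQ.map _, ?_⟩
  unfold Cj at h
  rw [← h, Set.image_singleton]

theorem sing_NC {C : Set (Subgroup G)} (hC : C ∈ sing p G) {g : G} (h : Cj g C C) :
    g ∈ NC C := by
  obtain ⟨Q, hQ, rfl⟩ := hC
  rw [mem_NC]
  rintro P rfl
  exact h.mem (P := P) rfl

/-- the weight of a block -/
def fz (C : Set (Subgroup G)) (w : MonoidAlgebra k (KC C)) : ℕ :=
  if IsTr (⊥ : Subgroup (KC C)) w then 1 else 0

theorem fz_kck {g : G} {C₁ C₂ : Set (Subgroup G)} (h : Cj g C₁ C₂)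
    (w : MonoidAlgebra k (KC C₁)) : fz C₂ (me k (kck h) w) = fz C₁ w := by
  unfold fz
  have h1 : IsTr (⊥ : Subgroup (KC C₂)) (me k (kck h) w) ↔ IsTr (⊥ : Subgroup (KC C₁)) w := by
    constructor
    · intro h2
      have h3 := me_isTr (kck h).symm h2
      rwa [me_symm_me] at h3
    · exact me_isTr (kck h)
  simp only [h1]

theorem sum_fz (C : Set (Subgroup G)) {b : MonoidAlgebra k G} (hb : ∀ a, b * a = a * b) :
    ∑ᶠ w : SB C b, fz C (w : MonoidAlgebra k (KC C)) = zc (bq C b) := by
  haveI := Fintype.ofFinite (SB C b)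
  have h1 : zc (bq C b) = Nat.card {w : SB C b // IsTr (⊥ : Subgroup (KC C)) (w : MonoidAlgebra k _)} := by
    unfold zc
    refine Nat.card_congr
      { toFun := fun w => ⟨⟨w.1, w.2.1, by rw [← bq_central hb, w.2.2.2]⟩, w.2.2.1⟩
        invFun := fun w => ⟨w.1.1, w.1.2.1, w.2, by rw [bq_central hb, w.1.2.2]⟩
        left_inv := fun w => rfl
        right_inv := fun w => rfl }
  rw [finsum_eq_sum_of_fintype, h1, Nat.card_eq_fintype_card, Fintype.card_subtype,
    Finset.card_filter]
  rfl

theorem NC_single (Q : Subgroup G) : NC ({Q} : Set (Subgroup G)) =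
    Subgroup.normalizer (Q : Set G) := by
  ext x
  rw [mem_NC, mem_nor_iff]
  simp

/-- the isomorphism of the quotient groups -/
def kq (Q : Subgroup G) : KC ({Q} : Set (Subgroup G)) ≃* NQ Q :=
  QuotientGroup.congr _ _ (MulEquiv.subgroupCongr (NC_single Q)) (by
    ext x
    rw [Subgroup.mem_map]
    constructor
    · rintro ⟨n, hn, rfl⟩
      rw [Subgroup.mem_subgroupOf, sInf_singleton] at hn
      exact hn
    · intro hx
      refine ⟨(MulEquiv.subgroupCongr (NC_single Q)).symm x, ?_, MulEquiv.apply_symm_apply _ x⟩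
      rw [Subgroup.mem_subgroupOf, sInf_singleton]
      exact hx)

theorem kq_pk (Q : Subgroup G) (n : NC ({Q} : Set (Subgroup G))) :
    kq Q (pk _ n) = QuotientGroup.mk' (Q.subgroupOf (Subgroup.normalizer (Q : Set G)))
      (MulEquiv.subgroupCongr (NC_single Q) n) := rfl

theorem brQ_eq (Q : Subgroup G) (b : MonoidAlgebra k G) : brQ Q b = me k (kq Q) (bq {Q} b) := by
  have h1 : brN Q b = me k (MulEquiv.subgroupCongr (NC_single Q)) (brc {Q} b) := by
    apply ext_coeff
    intro n
    obtain ⟨m, rfl⟩ := (MulEquiv.subgroupCongr (NC_single Q)).surjective n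
    rw [me_coeff, brc_coeff, sSup_singleton]
    unfold brN
    rw [coeff_ofCoeff, Finsupp.filter_apply, Finsupp.comapDomain_apply]
    rfl
  unfold brQ bq
  rw [h1, me_apply, me_apply, mp_comp]
  change mp k _ (mp k _ _) = _
  rw [mp_comp]
  rfl

theorem zc_bq_conj {g : G} {C₁ C₂ : Set (Subgroup G)} (h : Cj g C₁ C₂) {b : MonoidAlgebra k G}
    (hb : ∀ a, b * a = a * b) : zc (bq C₂ b) = zc (bq C₁ b) := by
  have h1 := bq_kck h b
  rw [cj_central g hb] at h1
  rw [h1, zc_me]

/-- the number of classes of weights as a sum over the classes of chains -/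
theorem wts_eq {b : MonoidAlgebra k G} (hb : ∀ a, b * a = a * b) :
    wts p b = chSum (sing p G) b fz := by
  unfold wts chSum
  let e : Quotient (conjP p G) → Quotient (cjs (sing p G)) :=
    Quotient.map (sa := conjP p G) (sb := cjs (sing p G))
      (fun Q => ⟨{Q.1}, Q.1, Q.2, rfl⟩) (by
        rintro Q Q' ⟨g, h⟩
        refine ⟨g, ?_⟩
        change cs g '' {Q.1} = {Q'.1}
        rw [Set.image_singleton]
        exact congrArg _ h)
  have he : ∀ Q : {Q : Subgroup G // IsPGroup p Q}, e (Quotient.mk _ Q) =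
      Quotient.mk (cjs (sing p G)) ⟨{Q.1}, Q.1, Q.2, rfl⟩ := fun Q => rfl
  refine finsum_eq_of_bijective e ⟨?_, ?_⟩ ?_
  · intro a b'
    induction a using Quotient.inductionOn with
    | h Q =>
      induction b' using Quotient.inductionOn with
      | h Q' =>
        intro h
        obtain ⟨g, hg⟩ := Quotient.exact h
        change cs g '' {Q.1} = {Q'.1} at hg
        rw [Set.image_singleton, Set.singleton_eq_singleton_iff] at hg
        exact Quotient.sound ⟨g, hg⟩
  · intro a
    induction a using Quotient.inductionOn with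
    | h C =>
      obtain ⟨C, Q, hQ, rfl⟩ := C
      exact ⟨Quotient.mk _ ⟨Q, hQ⟩, rfl⟩
  · intro c
    induction c using Quotient.inductionOn with
    | h Q =>
      rw [he, sum_fz _ hb, brQ_eq, zc_me]
      have h1 : (conjP p G).r Q (Quotient.out (Quotient.mk (conjP p G) Q)) :=
        Quotient.exact (Quotient.out_eq _).symm
      have h2 : (cjs (sing p G)).r ⟨{Q.1}, Q.1, Q.2, rfl⟩ (Quotient.out
          (Quotient.mk (cjs (sing p G)) ⟨{Q.1}, Q.1, Q.2, rfl⟩)) :=
        Quotient.exact (Quotient.out_eq _).symm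
      obtain ⟨g, hg⟩ := h1
      obtain ⟨g', hg'⟩ := h2
      rw [zc_bq_conj hg' hb]
      refine zc_bq_conj (g := g) ?_ hb
      change cs g '' {Q.1} = _
      rw [Set.image_singleton]
      exact congrArg _ hg

end bridge

namespace Ind

variable {p : ℕ} [hp : Fact p.Prime] {k X V G : Type} [Field k] [CharP k p] [Group X]
  [CommGroup V] [Group G] [Fintype X] [Fintype V] [Finite G] (I : Ind k X V G)
  (hV : ¬ p ∣ Nat.card V) {u : k} (hu : u * (Fintype.card V : k) = 1)

theorem jS_single (Q : Subgroup G) : I.jS {Q} = {Q.map I.j} := Set.image_singleton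

include hu in
theorem isTr_cen_iff {w : MonoidAlgebra k G} (hw : IsBlock w) :
    IsTr (⊥ : Subgroup X) (I.cen u w) ↔ IsTr (⊥ : Subgroup G) w := by
  constructor
  · intro h
    obtain ⟨P, x, hP, hP'⟩ := I.isTr_of_cen hu hw h
    have h1 : P = ⊥ := by
      rw [eq_bot_iff]
      intro g hg
      have h2 := hP g hg
      rw [Subgroup.mem_bot] at h2 ⊢
      have h3 : I.j g = 1 := by
        have h4 : I.j g = x * (x⁻¹ * I.j g * x) * x⁻¹ := by group
        rw [h4, h2, mul_one, mul_inv_cancel]
      exact (I.inj 1 g (by rw [map_one, one_mul, h3])).2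
    rwa [h1] at hP'
  · intro h
    have h1 := I.cen_isTr hu h
    rwa [Subgroup.map_bot] at h1

include hV hu in
/-- the numbers of weights agree -/
theorem wts_cen {b : MonoidAlgebra k G} (hb : ∀ a, b * a = a * b) (hi : b * b = b) :
    wts p (I.cen u b) = wts p b := by
  rw [wts_eq (I.cen_comm hu hb), wts_eq hb]
  refine I.chSum_transfer hV hu (fun C hC => sing_prop hC) (fun C hC => sing_prop hC) ?_
    (fun x C C' h hC => sing_conj h hC) hb hi (fun C hC g h => sing_NC hC h)
    (fun C hC g h => sing_NC hC h) fz fz (fun g C₁ C₂ h w _ => fz_kck h w)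
    (fun g C₁ C₂ h w _ => fz_kck h w) ?_
  · intro C
    constructor
    · rintro ⟨Q', hQ', h⟩
      have h1 : ∀ P ∈ C, P.map I.j = Q' := by
        intro P hP
        have : P.map I.j ∈ I.jS C := ⟨P, hP, rfl⟩
        rw [h] at this
        exact this
      have h2 : (I.jS C).Nonempty := by
        rw [h]
        exact ⟨Q', rfl⟩
      obtain ⟨_, P, hP, -⟩ := h2
      refine ⟨P, ?_, ?_⟩
      · have h3 := hQ'
        rw [← h1 P hP] at h3
        have h4 := h3.comap_of_injective I.j I.j_inj
        rwa [Subgroup.comap_map_eq_self_of_injective I.j_inj] at h4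
      · ext P'
        constructor
        · intro hP'
          exact Subgroup.map_injective I.j_inj ((h1 P' hP').trans (h1 P hP).symm)
        · rintro rfl
          exact hP
    · rintro ⟨Q, hQ, rfl⟩
      exact ⟨Q.map I.j, hQ.map I.j, I.jS_single Q⟩
  · intro C hC w hw
    unfold fz
    have h1 := (I.lev C (sing_prop hC).1 (sing_prop hC).2 hV).isTr_cen_iff
      (I.u_V0 hV hu (sing_prop hC).2) hw
    simp only [h1]

include hu in
/-- the numbers of simple modules agree -/
theorem nSimple_cen {b : MonoidAlgebra k G} (hb : IsBlock b) :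
    nSimple (BlockAlg (I.cen_isBlock hu hb)) = nSimple (BlockAlg hb) := by
  haveI : Nonempty I.Q := ⟨QuotientGroup.mk 1⟩
  rw [← nSimple_eq (ModuleCat.restrictScalarsEquivalenceOfRingEquiv (I.blockEquiv hu hb)).symm,
    ← nSimple_eq (ModuleCat.matrixEquivalence (BlockAlg hb)
      (Classical.arbitrary I.Q))]

end Ind

end Pool.Agent.H373.BU
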