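import Pool.Agent.H373.CH.G1
import Pool.Agent.H373.BU.E2
import Pool.Agent.H373.BU.B2

/-!
# Alperin's weight conjecture and the groups `M_n(Z/q) ⋊ A_n`
-/

set_option autoImplicit false
set_option linter.unusedSectionVars false
set_option linter.style.haveILetI false

open scoped BigOperators Classical

noncomputable section

namespace Pool.Agent.H373.BU

open MonoidAlgebra

/-- A block of `kG`. -/
structure Blk (k G : Type) [Field k] [Group G] where
  /-- the block idempotent -/
  e : MonoidAlgebra k G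
  he : IsBlock e

namespace Blk

variable {k G : Type} [Field k] [Group G]

/-- The block algebra `kGb`. -/
def Alg (B : Blk k G) : Type := BlockAlg B.he

instance (B : Blk k G) : Ring B.Alg := (inferInstance : Ring (BlockAlg B.he))

/-- The number of isomorphism classes of simple modules of the block algebra. -/
def l (B : Blk k G) : ℕ := nSimple B.Alg

/-- The number of `G`-orbits of weights of the block. -/
def w (p : ℕ) (B : Blk k G) : ℕ := wts p B.e

/-- `D` is a defect group of the block: a `p`-subgroup of `G` of minimal order among the subgroups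
`D` such that the block idempotent is a relative trace from `D`. -/
def IsDef (p : ℕ) (B : Blk k G) (D : Subgroup G) : Prop := IsPGroup p D ∧ IsMinTr D B.e

end Blk

/-- Every block of `kG` is reproduced by a block of `kY`: a matrix ring over the given block algebra is
isomorphic to the new one, the defect groups are isomorphic, and the numbers of simple modules and of
orbits of weights are the same. -/
def Repro (p : ℕ) (k G Y : Type) [Field k] [Group G] [Group Y] : Prop :=
  ∀ B : Blk k G, ∃ B' : Blk k Y,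
    (∃ r : ℕ, 0 < r ∧ Nonempty (Matrix (Fin r) (Fin r) B.Alg ≃+* B'.Alg)) ∧
    (∀ D : Subgroup G, B.IsDef p D → ∃ D' : Subgroup Y, B'.IsDef p D' ∧ Nonempty (D' ≃* D)) ∧
    B'.l = B.l ∧ B'.w p = B.w p

/-- **Alperin's weight conjecture** for all blocks of `kG`. -/
def AWC (p : ℕ) (k G : Type) [Field k] [Group G] : Prop := ∀ B : Blk k G, B.l = B.w p

section main

variable {p : ℕ} [hp : Fact p.Prime] {k : Type} [Field k] [CharP k p]

theorem repro_of_ind {X V G : Type} [Group X] [CommGroup V] [Group G] [Fintype X] [Fintype V]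
    [Finite G] (I : Ind k X V G) (hV : ¬ p ∣ Nat.card V) : Repro p k G X := by
  rintro ⟨e, he⟩
  have hV0 : (Fintype.card V : k) ≠ 0 := by
    rw [← Nat.card_eq_fintype_card, Ne, CharP.cast_eq_zero_iff k p]
    exact hV
  have hu : ((Fintype.card V : k)⁻¹) * (Fintype.card V : k) = 1 := inv_mul_cancel₀ hV0
  haveI : Nonempty I.Q := ⟨QuotientGroup.mk 1⟩
  refine ⟨⟨I.cen _ e, I.cen_isBlock hu he⟩, ⟨Fintype.card I.Q, Fintype.card_pos, ⟨?_⟩⟩, ?_,
    I.nSimple_cen hu he, I.wts_cen hV hu he.central he.idem⟩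
  · exact ((Matrix.reindexAlgEquiv ℤ (BlockAlg he) (Fintype.equivFin I.Q).symm).toRingEquiv).trans
      (I.blockEquiv hu he)
  · rintro D ⟨hD, hD'⟩
    exact ⟨D.map I.j, ⟨hD.map I.j, I.cen_isMinTr hu he hD'⟩,
      ⟨(D.equivMapOfInjective I.j I.j_inj).symm⟩⟩

theorem repro_UG [IsAlgClosed k] {q : ℕ} (hq : 1 < q) (hpq : ¬ p ∣ q) (G : Type) [Group G]
    [Finite G] {n : ℕ} (hn : Nat.card G ^ 2 + 3 * Nat.card G ≤ n) : Repro p k G (UG n q) := by
  haveI : NeZero q := ⟨by omega⟩
  haveI := Fintype.ofFinite G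
  haveI := Fintype.ofFinite (UG n q)
  haveI : Finite (Mt n q) := inferInstanceAs (Finite (Matrix (Fin n) (Fin n) (ZMod q)))
  haveI := Fintype.ofFinite (Mt n q)
  have hqk : ¬ (q : k) = 0 := by rwa [CharP.cast_eq_zero_iff k p]
  obtain ⟨ζ, hζ⟩ := exists_root (p := p) k hqk
  obtain ⟨S, ι, hι, hs, hS⟩ := UM.exists_rel (H := G) (n := n) (by
    rwa [← Nat.card_eq_fintype_card])
  refine repro_of_ind (uInd hq hζ S ι hι hs hS) ?_
  rw [card_Mt]
  exact fun h => hpq (hp.out.dvd_of_dvd_pow h)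

theorem repro_AG [IsAlgClosed k] {q : ℕ} (hq : 1 < q) (hpq : ¬ p ∣ q)
    (G H : Type) [Group G] [Finite G] [Group H] [Finite H] (ι : G →* H)
    (hι : Function.Injective ι) (hi : 3 ≤ ι.range.index) : Repro p k G (AG ι.range q) := by
  haveI : NeZero q := ⟨by omega⟩
  haveI := Fintype.ofFinite (AG ι.range q)
  haveI := Fintype.ofFinite (Multiplicative (Aug ι.range q))
  have hqk : ¬ (q : k) = 0 := by rwa [CharP.cast_eq_zero_iff k p]
  obtain ⟨ζ, hζ⟩ := exists_root (p := p) k hqk
  exact repro_of_ind (augInd hq hζ ι hι hi) (card_Aug hpq)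

end main

end Pool.Agent.H373.BU

open Pool.Agent.H373.BU in
theorem Pool.Agent.H373.BU.awc_main (p : ℕ) [Fact p.Prime] (k : Type) [Field k] [IsAlgClosed k]
    [CharP k p] (q : ℕ) (hq : 1 < q) (hpq : q.Coprime p) :
    (∀ (G : Type) [Group G] [Finite G] (n : ℕ), Nat.card G ^ 2 + 3 * Nat.card G ≤ n →
      Repro p k G (XG n q)) ∧
    ∀ S : Set ℕ, S.Infinite →
      ((∀ (G : Type) [Group G] [Finite G], AWC p k G) ↔ ∀ n ∈ S, AWC p k (XG n q)) ∧
      ∀ R : ℕ → ℕ → Prop, (∀ (G : Type) [Group G] [Finite G] (B : Blk k G), R B.l (B.w p)) ↔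
        ∀ n ∈ S, ∀ B : Blk k (XG n q), R B.l (B.w p) := by
  have hpp : p.Prime := Fact.out
  have hpq' : ¬ p ∣ q := fun h => hpp.one_lt.ne' (by
    have := Nat.dvd_gcd h (dvd_refl p)
    rw [hpq] at this
    exact Nat.dvd_one.mp this)
  haveI : NeZero q := ⟨by omega⟩
  have key : ∀ S : Set ℕ, S.Infinite → ∀ R : ℕ → ℕ → Prop,
      (∀ (G : Type) [Group G] [Finite G] (B : Blk k G), R B.l (B.w p)) ↔
        ∀ n ∈ S, ∀ B : Blk k (XG n q), R B.l (B.w p) := by
    intro S hS R
    constructor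
    · exact fun h n _ => h (XG n q)
    · intro h G _ _ B
      obtain ⟨n, hnS, hn⟩ := hS.exists_gt (Nat.card G ^ 2 + 3 * Nat.card G)
      obtain ⟨B', -, -, h1, h2⟩ := repro_UG (p := p) (k := k) hq hpq' G hn.le B
      rw [← h1, ← h2]
      exact h n hnS B'
  exact ⟨fun G _ _ n hn => repro_UG hq hpq' G hn, fun S hS => ⟨key S hS Eq, key S hS⟩⟩

open Pool.Agent.H373.BU in
theorem Pool.Agent.H373.BU.awc_perf (p : ℕ) [Fact p.Prime] (k : Type) [Field k] [IsAlgClosed k]
    [CharP k p] (q : ℕ) (hq : 1 < q) (hpq : q.Coprime p) :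
    (∀ (G H : Type) [Group G] [Finite G] [Group H] [Finite H] (ι : G →* H),
      Function.Injective ι → 3 ≤ ι.range.index → ∃ (Y : Type) (_ : Group Y) (_ : Finite Y),
        ExtOf (fun H' _ => Nonempty (H' ≃* H)) q Y ∧ (commutator H = ⊤ → commutator Y = ⊤) ∧
          Repro p k G Y) ∧
    (∀ C : (H : Type) → [Group H] → Prop, Cofinal C →
      ((∀ (G : Type) [Group G] [Finite G], AWC p k G) ↔
        ∀ (Y : Type) [Group Y] [Finite Y], ExtOf C q Y → AWC p k Y) ∧
      ((∀ (H : Type) [Group H], C H → commutator H = ⊤) →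
        ((∀ (G : Type) [Group G] [Finite G], AWC p k G) ↔
          ∀ (Y : Type) [Group Y] [Finite Y], ExtOf C q Y → commutator Y = ⊤ → AWC p k Y))) ∧
    ∀ S : Set ℕ, S.Infinite →
      ((∀ (G : Type) [Group G] [Finite G], AWC p k G) ↔
        ∀ (Y : Type) [Group Y] [Finite Y], ExtOf (AltIn S) q Y → commutator Y = ⊤ →
          AWC p k Y) := by
  have hpp : p.Prime := Fact.out
  have hpq' : ¬ p ∣ q := fun h => hpp.one_lt.ne' (by
    have := Nat.dvd_gcd h (dvd_refl p)
    rw [hpq] at this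
    exact Nat.dvd_one.mp this)
  haveI : NeZero q := ⟨by omega⟩
  have step : ∀ {G Y : Type} [Group G] [Group Y], AWC p k Y → Repro p k G Y → AWC p k G := by
    intro G Y _ _ hY h B
    obtain ⟨B', -, -, h1, h2⟩ := h B
    rw [← h1, ← h2]
    exact hY B'
  have key : ∀ C : (H : Type) → [Group H] → Prop, Cofinal C →
      ((∀ (H : Type) [Group H], C H → commutator H = ⊤) →
        ((∀ (G : Type) [Group G] [Finite G], AWC p k G) ↔
          ∀ (Y : Type) [Group Y] [Finite Y], ExtOf C q Y → commutator Y = ⊤ → AWC p k Y)) := by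
    intro C hC hperf
    refine ⟨fun h Y _ _ _ _ => h Y, fun h G _ _ => ?_⟩
    obtain ⟨H, _, _, ι, hCH, hι, hi⟩ := hC G
    exact step (h (AG ι.range q) (extOf_AG ι.range q hCH) (perfect_AG (hperf H hCH)))
      (repro_AG hq hpq' G H ι hι hi)
  refine ⟨fun G H _ _ _ _ ι hι hi => ⟨AG ι.range q, inferInstance, inferInstance,
    extOf_AG (C := fun H' _ => Nonempty (H' ≃* H)) ι.range q ⟨MulEquiv.refl H⟩, perfect_AG,
    repro_AG hq hpq' G H ι hι hi⟩,
    fun C hC => ⟨⟨fun h Y _ _ _ => h Y, fun h G _ _ => ?_⟩, key C hC⟩, fun S hS => ?_⟩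
  · obtain ⟨H, _, _, ι, hCH, hι, hi⟩ := hC G
    exact step (h (AG ι.range q) (extOf_AG ι.range q hCH)) (repro_AG hq hpq' G H ι hι hi)
  · exact key (AltIn S) (cofinal_alt hS) (fun H _ h => perfect_alt H h)
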