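import Pool.Agent.H373.CH.F2
import Pool.Agent.H373.BU.C5

/-!
# Irreducible characters as primitive central idempotents
-/

set_option autoImplicit false
set_option linter.unusedSectionVars false
set_option linter.style.haveILetI false

open scoped BigOperators Classical

noncomputable section

namespace Pool.Agent.H373.BU

open MonoidAlgebra

/-- For the primitive central idempotent `ε` of the irreducible character `χ` of `G` this is the
dimension `χ(1) ^ 2` of the simple algebra `ΩG ε`. -/
def dg {Ω G : Type} [Field Ω] [Group G] (ε : MonoidAlgebra Ω G) : ℕ :=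
  Module.finrank Ω (LinearMap.range (LinearMap.mulRight Ω ε))

namespace Ind

section dg

variable {Ω X V G : Type} [Field Ω] [Group X] [CommGroup V] [Group G] [Fintype X] [Fintype V]
  (I : Ind Ω X V G) {u : Ω} (hu : u * (Fintype.card V : Ω) = 1)

include hu in
theorem dg_cen {ε : MonoidAlgebra Ω G} (hε : ε * ε = ε) :
    dg (I.cen u ε) = Fintype.card I.Q * (Fintype.card I.Q * dg ε) := by
  let W := LinearMap.range (LinearMap.mulRight Ω ε)
  have hW : ∀ a : MonoidAlgebra Ω G, a ∈ W ↔ a * ε = a := by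
    intro a
    constructor
    · rintro ⟨b, rfl⟩
      change b * ε * ε = b * ε
      rw [mul_assoc, hε]
    · intro h
      exact ⟨a, h⟩
  have hce : I.cen u ε * I.cen u ε = I.cen u ε := by rw [← I.cen_mul hu, hε]
  let F : (I.Q → I.Q → W) →ₗ[Ω] LinearMap.range (LinearMap.mulRight Ω (I.cen u ε)) :=
    { toFun := fun m => ⟨I.Psi u (Matrix.of fun p q => (m p q : MonoidAlgebra Ω G)),
        I.Psi u (Matrix.of fun p q => (m p q : MonoidAlgebra Ω G)), by
          change I.Psi u _ * I.cen u ε = _
          rw [cen, ← I.Psi_mul hu]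
          congr 1
          ext1 p q
          rw [Matrix.scalar_apply, Matrix.mul_diagonal]
          exact (hW _).mp (m p q).2⟩
      map_add' := fun m n => by
        apply Subtype.ext
        exact map_add (I.Psi u) (Matrix.of fun p q => (m p q : MonoidAlgebra Ω G))
          (Matrix.of fun p q => (n p q : MonoidAlgebra Ω G))
      map_smul' := fun r m => by
        apply Subtype.ext
        exact map_smul (I.Psi u) r (Matrix.of fun p q => (m p q : MonoidAlgebra Ω G)) }
  have hF : Function.Bijective F := by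
    constructor
    · intro m n h
      have h1 := I.Psi_inj hu (congrArg Subtype.val h)
      funext p q
      exact Subtype.ext (congrFun (congrFun h1 p) q)
    · rintro ⟨_, b, rfl⟩
      have h2 : I.Pi (b * I.cen u ε) * Matrix.scalar I.Q ε = I.Pi (b * I.cen u ε) := by
        rw [← I.Pi_cen hu, ← map_mul, mul_assoc, hce]
      refine ⟨fun p q => ⟨I.Pi (b * I.cen u ε) p q, (hW _).mpr ?_⟩, ?_⟩
      · have := congrFun (congrFun h2 p) q
        rwa [Matrix.scalar_apply, Matrix.mul_diagonal] at this
      · apply Subtype.ext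
        change I.Psi u (Matrix.of fun p q => I.Pi (b * I.cen u ε) p q) = b * I.cen u ε
        have h3 : (Matrix.of fun p q => I.Pi (b * I.cen u ε) p q) = I.Pi (b * I.cen u ε) := rfl
        rw [h3, I.Psi_Pi_right, mul_assoc, ← I.El_comm, I.El_cen hu]
  have h1 := (LinearEquiv.ofBijective F hF).finrank_eq
  haveI : Finite G := Finite.of_injective I.j I.j_inj
  haveI : FiniteDimensional Ω (MonoidAlgebra Ω G) := by
    haveI := Fintype.ofFinite G
    exact inferInstance
  haveI : Module.Finite Ω W := inferInstance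
  unfold dg
  rw [← h1, Module.finrank_pi_fintype]
  simp only [Module.finrank_pi_fintype, Finset.sum_const, Finset.card_univ, smul_eq_mul]
  rfl

end dg

end Ind

/-- The irreducible characters in the block with the idempotent `e`, given by their primitive central
idempotents. -/
def Ir {L Ω G : Type} [CommRing L] [Field Ω] [Group G] (s : L →+* Ω) (e : MonoidAlgebra L G) :
    Set (MonoidAlgebra Ω G) := {ε | IsBlock ε ∧ ε * red s e = ε}

namespace Ind

section ir

variable {L Ω X V G : Type} [CommRing L] [IsDomain L] [Field Ω] [Group X] [CommGroup V] [Group G]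
  [Fintype X] [Fintype V] (I : Ind L X V G) {u : L} (hu : u * (Fintype.card V : L) = 1)
  (s : L →+* Ω) (hs : Function.Injective s)

include hs in
theorem lam_inj (v : V) (h : s (I.lam v : L) = 1) : I.lam v = 1 := by
  apply Units.ext
  apply hs
  rw [h, Units.val_one, map_one]

/-- the data over `Ω` -/
abbrev om : Ind Ω X V G := I.map s (I.lam_inj s hs)

include hu in
theorem hu_om : s u * (Fintype.card V : Ω) = 1 := by
  rw [← map_natCast s, ← map_mul, hu, map_one]

include hu in
theorem ir_cen {e : MonoidAlgebra L G} {ε : MonoidAlgebra Ω G} (h : ε ∈ Ir s e) :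
    (I.om s hs).cen (s u) ε ∈ Ir s (I.cen u e) := by
  have hu' := hu_om hu s
  refine ⟨(I.om s hs).cen_isBlock hu' h.1, ?_⟩
  rw [I.red_cen s (I.lam_inj s hs), ← (I.om s hs).cen_mul hu', h.2]

include hu in
theorem ir_surj {e : MonoidAlgebra L G} {ε' : MonoidAlgebra Ω X} (h : ε' ∈ Ir s (I.cen u e)) :
    ∃ ε ∈ Ir s e, (I.om s hs).cen (s u) ε = ε' := by
  have hu' := hu_om hu s
  have h2 := h.2
  rw [I.red_cen s (I.lam_inj s hs)] at h2
  have h3 : (I.om s hs).El (s u) * ε' = ε' := by
    rw [← h2, (I.om s hs).El_comm, mul_assoc, ← (I.om s hs).El_comm, (I.om s hs).El_cen hu']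
  obtain ⟨ε, h4, h5⟩ := (I.om s hs).exists_cen hu' h.1.central h3
  have h6 : IsBlock ε := (I.om s hs).isBlock_of_cen hu' h4 (by rw [h5]; exact h.1)
  refine ⟨ε, ⟨h6, ?_⟩, h5⟩
  apply (I.om s hs).cen_inj hu'
  rw [(I.om s hs).cen_mul hu', h5, h2]

/-- the correspondence of the characters -/
def irE (e : MonoidAlgebra L G) : Ir s e ≃ Ir s (I.cen u e) :=
  Equiv.ofBijective (fun ε => ⟨(I.om s hs).cen (s u) ε, I.ir_cen hu s hs ε.2⟩) (by
    constructor
    · intro a b h
      exact Subtype.ext ((I.om s hs).cen_inj (hu_om hu s) (congrArg Subtype.val h))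
    · rintro ⟨ε', h⟩
      obtain ⟨ε, hε, h1⟩ := I.ir_surj hu s hs h
      exact ⟨⟨ε, hε⟩, Subtype.ext h1⟩)

theorem irE_apply (e : MonoidAlgebra L G) (ε : Ir s e) :
    ((I.irE hu s hs e ε : Ir s (I.cen u e)) : MonoidAlgebra Ω X) =
      (I.om s hs).cen (s u) ε := rfl

end ir

section gal

variable {Ω X V G : Type} [Field Ω] [Group X] [CommGroup V] [Group G] [Fintype X] [Fintype V]
  (I : Ind Ω X V G) {u : Ω} (hu : u * (Fintype.card V : Ω) = 1)

/-- The character `lam` has order dividing two or three, and an element of `X` which centralises the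
image of `G` inverts it. -/
structure Inv (I : Ind Ω X V G) (x₀ : X) : Prop where
  ord : (∀ v, I.lam v ^ 2 = 1) ∨ ∀ v, I.lam v ^ 3 = 1
  comm : ∀ g, x₀ * I.j g = I.j g * x₀
  inv : ∀ v, I.lam (I.act x₀ v) = (I.lam v)⁻¹

/-- an automorphism fixes or inverts a third root of unity -/
theorem third {z : Ωˣ} (hz : z ^ 3 = 1) (hz1 : z ≠ 1) {w : Ωˣ} (hw : w ^ 3 = 1) :
    w = 1 ∨ w = z ∨ w = z⁻¹ := by
  have h1 : (w : Ω) ^ 3 = 1 := by rw [← Units.val_pow_eq_pow_val, hw, Units.val_one]
  have h2 : (z : Ω) ^ 3 = 1 := by rw [← Units.val_pow_eq_pow_val, hz, Units.val_one]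
  have h3 : (z : Ω) ≠ 1 := fun h => hz1 (Units.ext h)
  have h4 : (z : Ω) ^ 2 + z + 1 = 0 := by
    have : ((z : Ω) - 1) * ((z : Ω) ^ 2 + z + 1) = 0 := by
      have : ((z : Ω) - 1) * ((z : Ω) ^ 2 + z + 1) = (z : Ω) ^ 3 - 1 := by ring
      rw [this, h2, sub_self]
    exact (mul_eq_zero.mp this).resolve_left (sub_ne_zero.mpr h3)
  have h5 : ((w : Ω) - 1) * (((w : Ω) - z) * ((w : Ω) - (z : Ω) ^ 2)) = 0 := by
    have h6 : ((w : Ω) - 1) * (((w : Ω) - z) * ((w : Ω) - (z : Ω) ^ 2)) = (w : Ω) ^ 3 - 1 := by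
      have h7 : (z : Ω) ^ 2 = - z - 1 := by linear_combination h4
      have h8 : (w : Ω) ^ 3 - 1 = 0 := by rw [h1, sub_self]
      rw [h8]
      linear_combination (w - w ^ 2) * (h4) + h1 + (w - 1) * (h2)
    rw [h6, h1, sub_self]
  rcases mul_eq_zero.mp h5 with h | h
  · left
    exact Units.ext (sub_eq_zero.mp h)
  · rcases mul_eq_zero.mp h with h | h
    · right; left
      exact Units.ext (sub_eq_zero.mp h)
    · right; right
      have h9 : w = z ^ 2 := Units.ext (by rw [sub_eq_zero.mp h, Units.val_pow_eq_pow_val])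
      rw [h9, eq_inv_iff_mul_eq_one, ← pow_succ, hz]

end gal

end Ind

end Pool.Agent.H373.BU
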