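import Pool.Agent.H373.CH.K1

/-!
# Field automorphisms
-/

set_option autoImplicit false
set_option linter.unusedSectionVars false
set_option linter.style.haveILetI false

open scoped BigOperators Classical

noncomputable section

namespace Pool.Agent.H373.BU

open MonoidAlgebra

namespace Ind

section gal

variable {Ω X V G : Type} [Field Ω] [Group X] [CommGroup V] [Group G] [Fintype X] [Fintype V]
  (I : Ind Ω X V G) {u : Ω} (hu : u * (Fintype.card V : Ω) = 1) {x₀ : X} (h₀ : I.Inv x₀)

theorem tau_unit (τ : Ω ≃+* Ω) {v : V} (h : (τ : Ω →+* Ω) (I.lam v : Ω) = 1) : I.lam v = 1 := by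
  apply Units.ext
  apply τ.injective
  rw [Units.val_one, map_one]
  exact h

include h₀ in
theorem tau_lam (τ : Ω ≃+* Ω) :
    (∀ v, Units.map ((τ : Ω →+* Ω) : Ω →* Ω) (I.lam v) = I.lam v) ∨
      ∀ v, Units.map ((τ : Ω →+* Ω) : Ω →* Ω) (I.lam v) = (I.lam v)⁻¹ := by
  rcases h₀.ord with h | h
  · left
    intro v
    have h1 : ((I.lam v : Ωˣ) : Ω) ^ 2 = 1 := by
      rw [← Units.val_pow_eq_pow_val, h, Units.val_one]
    rw [pow_two] at h1
    rcases mul_self_eq_one_iff.mp h1 with h2 | h2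
    · apply Units.ext
      change τ (I.lam v : Ω) = I.lam v
      rw [h2, map_one]
    · apply Units.ext
      change τ (I.lam v : Ω) = I.lam v
      rw [h2, map_neg, map_one]
  · by_cases htriv : ∀ v, I.lam v = 1
    · left
      intro v
      rw [htriv, map_one]
    · push Not at htriv
      obtain ⟨v₀, hv₀⟩ := htriv
      have h1 : Units.map ((τ : Ω →+* Ω) : Ω →* Ω) (I.lam v₀) ^ 3 = 1 := by
        rw [← map_pow, h, map_one]
      have h2 : Units.map ((τ : Ω →+* Ω) : Ω →* Ω) (I.lam v₀) ≠ 1 := by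
        intro h2
        exact hv₀ (I.tau_unit τ (congrArg Units.val h2))
      rcases third (h v₀) hv₀ h1 with h3 | h3 | h3
      · exact absurd h3 h2
      · left
        intro v
        rcases third (h v₀) hv₀ (h v) with h4 | h4 | h4
        · rw [h4, map_one]
        · rw [h4, h3]
        · rw [h4, map_inv, h3]
      · right
        intro v
        rcases third (h v₀) hv₀ (h v) with h4 | h4 | h4
        · rw [h4, map_one, inv_one]
        · rw [h4, h3]
        · rw [h4, map_inv, h3]

include h₀ in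
theorem conj_Y {y : X} : x₀⁻¹ * y * x₀ ∈ I.Y ↔ y ∈ I.Y := by
  have hinv : ∀ v, I.lam (I.act x₀⁻¹ v) = (I.lam v)⁻¹ := by
    intro v
    have h1 := h₀.inv (I.act x₀⁻¹ v)
    rw [← MulAut.mul_apply, ← map_mul, mul_inv_cancel, map_one] at h1
    rw [← inv_inv (I.lam (I.act x₀⁻¹ v)), ← h1]
    rfl
  rw [I.mem_Y_iff, I.mem_Y_iff]
  constructor
  · intro h v
    have h1 := h (I.act x₀⁻¹ v)
    rw [map_mul, map_mul, MulAut.mul_apply, MulAut.mul_apply, hinv, hinv] at h1
    have h2 : I.act x₀ (I.act x₀⁻¹ v) = v := by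
      rw [← MulAut.mul_apply, ← map_mul, mul_inv_cancel, map_one]
      rfl
    rw [h2] at h1
    exact inv_injective h1
  · intro h v
    rw [map_mul, map_mul, MulAut.mul_apply, MulAut.mul_apply, hinv, h, h₀.inv, inv_inv]

include hu h₀ in
theorem cen_gal (τ : Ω ≃+* Ω) {z : MonoidAlgebra Ω G} (hz : ∀ a, z * a = a * z) :
    red (τ : Ω →+* Ω) (I.cen u z) = I.cen u (red (τ : Ω →+* Ω) z) := by
  haveI : Finite G := Finite.of_injective I.j I.j_inj
  have hinj : ∀ v, (τ : Ω →+* Ω) (I.lam v : Ω) = 1 → I.lam v = 1 := fun v h => I.tau_unit τ h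
  rw [I.red_cen (τ : Ω →+* Ω) hinj]
  have huτ : (τ : Ω →+* Ω) u = u := by
    have h1 : (τ : Ω →+* Ω) u * (Fintype.card V : Ω) = 1 := by
      rw [← map_natCast (τ : Ω →+* Ω), ← map_mul, hu, map_one]
    have h2 : (Fintype.card V : Ω) ≠ 0 := right_ne_zero_of_mul_eq_one hu
    exact mul_right_cancel₀ h2 (h1.trans hu.symm)
  rw [huτ]
  set w := red (τ : Ω →+* Ω) z with hw
  have hwc : ∀ a, w * a = a * w := red_central _ hz
  rw [cen_eq, cen_eq]
  rcases I.tau_lam h₀ τ with h | h
  · refine Finset.sum_congr rfl fun p _ => ?_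
    have h1 : (I.map (τ : Ω →+* Ω) hinj).ep u = I.ep u := by
      unfold ep
      refine Finset.sum_congr rfl fun v _ => ?_
      have h2 : (I.map (τ : Ω →+* Ω) hinj).lam v⁻¹ = I.lam v⁻¹ := h v⁻¹
      rw [h2]
      rfl
    rw [h1]
    rfl
  · have h1 : (I.map (τ : Ω →+* Ω) hinj).ep u = cj x₀ (I.ep u) := by
      unfold ep
      rw [cj_sum]
      refine (Fintype.sum_equiv (I.act x₀).toEquiv _ _ fun v => ?_).symm
      have h2 : (I.map (τ : Ω →+* Ω) hinj).lam (I.act x₀ v)⁻¹ = I.lam v⁻¹ := by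
        have h3 := h (I.act x₀ v)⁻¹
        change Units.map ((τ : Ω →+* Ω) : Ω →* Ω) (I.lam (I.act x₀ v)⁻¹) = _
        rw [h3, map_inv, h₀.inv, inv_inv, map_inv]
      change cj x₀ (MonoidAlgebra.single (I.i v) (u * ((I.lam v⁻¹ : Ωˣ) : Ω))) =
        MonoidAlgebra.single (I.i (I.act x₀ v))
          (u * (((I.map (τ : Ω →+* Ω) hinj).lam (I.act x₀ v)⁻¹ : Ωˣ) : Ω))
      rw [h2]
      unfold cj
      rw [MonoidAlgebra.single_mul_single, MonoidAlgebra.single_mul_single, one_mul, mul_one,
        I.act_spec]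
    have h3 : I.io w = cj x₀ (I.io w) := by
      symm
      rw [cj_eq_iff]
      induction w using MonoidAlgebra.induction_linear with
      | zero => simp
      | add a b ha hb => rw [map_add, mul_add, ha, hb, add_mul]
      | single g r => rw [io_single, single_eq, mul_smul_comm, smul_mul_assoc, el_mul, el_mul,
          h₀.comm]
    have hF : ∀ q ∈ I.Y, cj q (I.ep u * I.io w) = I.ep u * I.io w :=
      fun q hq => I.cj_ep hu hwc hq
    let f : I.Q → I.Q := fun p => QuotientGroup.mk (p.out * x₀)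
    have hf : Function.Injective f := by
      intro p q hpq
      have h4 := QuotientGroup.eq.mp hpq
      have h5 : (p.out * x₀)⁻¹ * (q.out * x₀) = x₀⁻¹ * (p.out⁻¹ * q.out) * x₀ := by group
      rw [h5, I.conj_Y h₀] at h4
      rw [← QuotientGroup.out_eq' p, ← QuotientGroup.out_eq' q, QuotientGroup.eq]
      exact h4
    have hfb : Function.Bijective f := Finite.injective_iff_bijective.mp hf
    refine Fintype.sum_bijective f hfb _ _ fun p => ?_
    have h6 : el Ω p.out * (I.map (τ : Ω →+* Ω) hinj).ep u * (I.map (τ : Ω →+* Ω) hinj).io w *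
        el Ω p.out⁻¹ = cj p.out (cj x₀ (I.ep u * I.io w)) := by
      rw [cj_mul' x₀, ← h1, ← h3]
      unfold cj
      simp only [mul_assoc]
      rfl
    have h7 : el Ω (f p).out * I.ep u * I.io w * el Ω (f p).out⁻¹ =
        cj (f p).out (I.ep u * I.io w) := by
      unfold cj
      simp only [mul_assoc]
    rw [h7, cj_out hF, cj_mul]
    exact h6

end gal

end Ind

end Pool.Agent.H373.BU
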