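import Pool.Agent.H373.CH.K2
import Pool.Agent.H373.BU.E2

/-!
# The Alperin–McKay–Navarro conjecture
-/

set_option autoImplicit false
set_option linter.unusedSectionVars false
set_option linter.style.haveILetI false

open scoped BigOperators Classical

noncomputable section

namespace Pool.Agent.H373.BU

open MonoidAlgebra IsLocalRing

section eqir

variable {L Ω G X : Type} [CommRing L] [Field Ω] [Group G] [Group X]

/-- There is a bijection between the irreducible characters in the block `e` of `G` and those in the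
block `e'` of `X` which commutes with all automorphisms of the field `Ω` and which preserves heights,
where `m` and `m'` are the indices of the defect groups; and the same automorphisms of `Ω` fix the two
blocks. -/
def EqIr (p : ℕ) (s : L →+* Ω) (e : MonoidAlgebra L G) (m : ℕ) (e' : MonoidAlgebra L X)
    (m' : ℕ) : Prop :=
  ∃ F : Ir s e ≃ Ir s e',
    (∀ (τ : Ω ≃+* Ω) (ε ε₁ : Ir s e),
      red (τ : Ω →+* Ω) (ε : MonoidAlgebra Ω G) = ε₁ ↔
        red (τ : Ω →+* Ω) (F ε : MonoidAlgebra Ω X) = F ε₁) ∧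
    (∀ ε : Ir s e, padicValNat p (dg (F ε : MonoidAlgebra Ω X)) + 2 * padicValNat p m =
      padicValNat p (dg (ε : MonoidAlgebra Ω G)) + 2 * padicValNat p m') ∧
    ∀ τ : Ω ≃+* Ω, red (τ : Ω →+* Ω) (red s e) = red s e ↔
      red (τ : Ω →+* Ω) (red s e') = red s e'

/-- The irreducible characters of height zero in the block with the idempotent `e` and a defect group
of index `m`. -/
def Ir0 (p : ℕ) (s : L →+* Ω) (e : MonoidAlgebra L G) (m : ℕ) : Set (MonoidAlgebra Ω G) :=
  {ε | ε ∈ Ir s e ∧ padicValNat p (dg ε) = 2 * padicValNat p m}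

/-- The automorphisms of the field `Ω` which map all roots of unity of order prime to `p` to their
`p ^ a`-th powers, for some `a`. -/
def IsH (p : ℕ) (τ : Ω ≃+* Ω) : Prop :=
  ∃ a : ℕ, ∀ (m : ℕ) (z : Ω), ¬ p ∣ m → z ^ m = 1 → τ z = z ^ (p ^ a)

/-- a bijection of the sets of characters of height zero which commutes with the automorphisms in
`IsH` which fix the block -/
def HBij (p : ℕ) (s : L →+* Ω) (e : MonoidAlgebra L G) (m : ℕ) (c : MonoidAlgebra L X)
    (n : ℕ) : Prop :=
  ∃ f : Ir0 p s e m ≃ Ir0 p s c n, ∀ τ : Ω ≃+* Ω, IsH p τ →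
    red (τ : Ω →+* Ω) (red s e) = red s e → ∀ ε ε₁ : Ir0 p s e m,
      red (τ : Ω →+* Ω) (ε : MonoidAlgebra Ω G) = ε₁ →
        red (τ : Ω →+* Ω) (f ε : MonoidAlgebra Ω X) = f ε₁

end eqir

section eqir2

variable {L Ω G X : Type} [CommRing L] [Field Ω] [Group G] [Group X]

theorem EqIr.ir0 {p : ℕ} {s : L →+* Ω} {e : MonoidAlgebra L G} {m : ℕ} {e' : MonoidAlgebra L X}
    {m' : ℕ} (h : EqIr p s e m e' m') :
    ∃ F : Ir0 p s e m ≃ Ir0 p s e' m',
      (∀ (τ : Ω ≃+* Ω) (ε ε₁ : Ir0 p s e m),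
        red (τ : Ω →+* Ω) (ε : MonoidAlgebra Ω G) = ε₁ ↔
          red (τ : Ω →+* Ω) (F ε : MonoidAlgebra Ω X) = F ε₁) ∧
      ∀ τ : Ω ≃+* Ω, red (τ : Ω →+* Ω) (red s e) = red s e ↔
        red (τ : Ω →+* Ω) (red s e') = red s e' := by
  obtain ⟨F, h1, h2, h3⟩ := h
  refine ⟨
    { toFun := fun ε => ⟨F ⟨ε.1, ε.2.1⟩, (F ⟨ε.1, ε.2.1⟩).2, by
        have h4 := h2 ⟨ε.1, ε.2.1⟩
        have h5 := ε.2.2
        change _ = padicValNat p (dg ε.1) + _ at h4
        omega⟩
      invFun := fun ε => ⟨F.symm ⟨ε.1, ε.2.1⟩, (F.symm ⟨ε.1, ε.2.1⟩).2, by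
        have h4 := h2 (F.symm ⟨ε.1, ε.2.1⟩)
        rw [F.apply_symm_apply] at h4
        have h5 := ε.2.2
        change padicValNat p (dg ε.1) + _ = _ at h4
        omega⟩
      left_inv := fun ε => by
        apply Subtype.ext
        change (F.symm ⟨F ⟨ε.1, ε.2.1⟩, _⟩ : MonoidAlgebra Ω G) = ε.1
        rw [Subtype.coe_eta, F.symm_apply_apply]
      right_inv := fun ε => by
        apply Subtype.ext
        change (F ⟨F.symm ⟨ε.1, ε.2.1⟩, _⟩ : MonoidAlgebra Ω X) = ε.1
        rw [Subtype.coe_eta, F.apply_symm_apply] }, ?_, h3⟩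
  intro τ ε ε₁
  exact h1 τ ⟨ε.1, ε.2.1⟩ ⟨ε₁.1, ε₁.2.1⟩

end eqir2

section hbij

variable {L Ω G X G' X' : Type} [CommRing L] [Field Ω] [Group G] [Group X] [Group G'] [Group X']

theorem HBij.iff {p : ℕ} {s : L →+* Ω} {e : MonoidAlgebra L G} {m : ℕ} {e' : MonoidAlgebra L X}
    {m' : ℕ} {c : MonoidAlgebra L G'} {n : ℕ} {c' : MonoidAlgebra L X'} {n' : ℕ}
    (h1 : EqIr p s e m e' m') (h2 : EqIr p s c n c' n') :
    HBij p s e' m' c' n' ↔ HBij p s e m c n := by
  obtain ⟨F, h3, h4⟩ := h1.ir0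
  obtain ⟨F', h5, -⟩ := h2.ir0
  constructor
  · rintro ⟨f, hf⟩
    refine ⟨(F.trans f).trans F'.symm, fun τ hτ hτe ε ε₁ h => ?_⟩
    rw [h5]
    simp only [Equiv.trans_apply, Equiv.apply_symm_apply]
    exact hf τ hτ ((h4 τ).mp hτe) _ _ ((h3 τ ε ε₁).mp h)
  · rintro ⟨f, hf⟩
    refine ⟨(F.symm.trans f).trans F', fun τ hτ hτe ε ε₁ h => ?_⟩
    simp only [Equiv.trans_apply]
    rw [← h5]
    refine hf τ hτ ((h4 τ).mpr hτe) _ _ ?_
    rw [h3, F.apply_symm_apply, F.apply_symm_apply]
    exact h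

end hbij

theorem dg_pos {Ω G : Type} [Field Ω] [Group G] [Finite G] {ε : MonoidAlgebra Ω G}
    (hε : ε ≠ 0) : dg ε ≠ 0 := by
  haveI : FiniteDimensional Ω (MonoidAlgebra Ω G) := by
    haveI := Fintype.ofFinite G
    exact inferInstance
  unfold dg
  intro h
  have h1 := Submodule.finrank_eq_zero.mp h
  apply hε
  have h2 : (1 : MonoidAlgebra Ω G) * ε ∈ LinearMap.range (LinearMap.mulRight Ω ε) := ⟨1, rfl⟩
  rw [h1, Submodule.mem_bot, one_mul] at h2
  exact h2

namespace Ind

section card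

variable {R X V G : Type} [CommRing R] [Group X] [CommGroup V] [Group G] [Finite X] [Finite V]
  [Finite G] (I : Ind R X V G)

theorem card_Y : Nat.card I.Y = Nat.card V * Nat.card G := by
  rw [← Nat.card_prod]
  refine (Nat.card_congr (Equiv.ofBijective
    (fun t : V × G => (⟨I.i t.1 * I.j t.2, I.form_mem _ _⟩ : I.Y)) ⟨?_, ?_⟩)).symm
  · rintro ⟨v, g⟩ ⟨v', g'⟩ h
    obtain ⟨h1, h2⟩ := I.uniq (congrArg Subtype.val h)
    exact Prod.ext h1 h2
  · rintro ⟨x, v, g, rfl⟩
    exact ⟨(v, g), rfl⟩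

theorem index_map (D : Subgroup G) :
    (D.map I.j).index = Nat.card I.Q * (Nat.card V * D.index) := by
  have h1 := (D.map I.j).card_mul_index
  have h2 := I.Y.card_mul_index
  have h3 := D.card_mul_index
  have h4 : Nat.card (D.map I.j) = Nat.card D :=
    (Nat.card_congr (D.equivMapOfInjective I.j I.j_inj).toEquiv).symm
  have h5 : Nat.card I.Q = I.Y.index := rfl
  rw [h4] at h1
  rw [I.card_Y] at h2
  have h6 : 0 < Nat.card D := Nat.card_pos
  apply Nat.eq_of_mul_eq_mul_left h6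
  rw [h1, ← h2, ← h3, h5]
  ring

end card

section eq

variable {L Ω X V G : Type} [CommRing L] [IsDomain L] [Field Ω] [Group X] [CommGroup V] [Group G]
  [Fintype X] [Fintype V] [Finite G] (I : Ind L X V G) {u : L}
  (hu : u * (Fintype.card V : L) = 1) (s : L →+* Ω) (hs : Function.Injective s) {x₀ : X}
  (h₀ : (I.om s hs).Inv x₀) {p : ℕ} [hp : Fact p.Prime] (hV : ¬ p ∣ Nat.card V)

include hu hs h₀ hV in
theorem eqIr {e : MonoidAlgebra L G} (he : ∀ a, e * a = a * e) (D : Subgroup G) :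
    EqIr p s e D.index (I.cen u e) (D.map I.j).index := by
  have hu' := hu_om hu s
  have hse : ∀ a, red s e * a = a * red s e := red_central s he
  refine ⟨I.irE hu s hs e, ?_, ?_, ?_⟩
  · intro τ ε ε₁
    rw [irE_apply, irE_apply, (I.om s hs).cen_gal hu' h₀ τ ε.2.1.central]
    constructor
    · intro h
      rw [h]
    · intro h
      exact (I.om s hs).cen_inj hu' h
  · intro ε
    have h1 : dg (ε : MonoidAlgebra Ω G) ≠ 0 := dg_pos ε.2.1.ne_zero
    haveI : Nonempty (I.om s hs).Q := ⟨QuotientGroup.mk 1⟩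
    have h2 : Fintype.card (I.om s hs).Q ≠ 0 := Fintype.card_ne_zero
    have h3 : Nat.card I.Q = Fintype.card (I.om s hs).Q := Nat.card_eq_fintype_card
    have h4 : Nat.card V ≠ 0 := Nat.card_pos.ne'
    have h5 : D.index ≠ 0 := Subgroup.index_ne_zero_of_finite
    rw [irE_apply, (I.om s hs).dg_cen hu' ε.2.1.idem, I.index_map D, h3,
      padicValNat.mul h2 (mul_ne_zero h2 h1), padicValNat.mul h2 h1,
      padicValNat.mul h2 (mul_ne_zero h4 h5), padicValNat.mul h4 h5,
      padicValNat.eq_zero_of_not_dvd hV]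
    ring
  · intro τ
    rw [I.red_cen s (I.lam_inj s hs), (I.om s hs).cen_gal hu' h₀ τ hse]
    constructor
    · intro h
      rw [h]
    · intro h
      exact (I.om s hs).cen_inj hu' h

end eq

end Ind

section main

variable {L : Type} [CommRing L] [IsDomain L] [IsDiscreteValuationRing L]
  [IsAdicComplete (maximalIdeal L) L] {p : ℕ} [hp : Fact p.Prime] [CharP (ResidueField L) p]

/-- The characters of height zero in a block. -/
def BlockData.HZ {Ω G : Type} [Field Ω] [Group G] (s : L →+* Ω) (B : BlockData p L G) :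
    Set (MonoidAlgebra Ω G) := Ir0 p s B.e B.D.index

/-- The characters of height zero in the Brauer correspondent. -/
def BlockData.HZc {Ω G : Type} [Field Ω] [Group G] (s : L →+* Ω) (B : BlockData p L G) :
    Set (MonoidAlgebra Ω (Subgroup.normalizer (B.D : Set G))) :=
  Ir0 p s B.c (B.D.subgroupOf (Subgroup.normalizer (B.D : Set G))).index

/-- **The Alperin–McKay–Navarro conjecture** for the block `B`: there is a bijection between the
irreducible characters of height zero in `B` and those in its Brauer correspondent which commutes with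
the automorphisms `τ` of `Ω` in `IsH` which fix the block. -/
def AMN {Ω G : Type} [Field Ω] [Group G] (s : L →+* Ω) (B : BlockData p L G) : Prop :=
  ∃ f : B.HZ s ≃ B.HZc s, ∀ τ : Ω ≃+* Ω, IsH p τ →
    red (τ : Ω →+* Ω) (red s B.e) = red s B.e → ∀ ε ε₁ : B.HZ s,
      red (τ : Ω →+* Ω) (ε : MonoidAlgebra Ω G) = ε₁ →
        red (τ : Ω →+* Ω) (f ε : MonoidAlgebra Ω (Subgroup.normalizer (B.D : Set G))) = f ε₁

/-- The blocks of `ΛG` are reproduced by blocks of `ΛY`: block algebras up to matrix rings, defect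
groups, irreducible characters with their heights and the action of the automorphisms of `Ω` on them,
all this also for the Brauer correspondents, and the Alperin–McKay–Navarro conjecture holds for the
new block if and only if it holds for the given one. -/
def ReproN {Ω : Type} [Field Ω] (p : ℕ) [Fact p.Prime] [CharP (ResidueField L) p] (s : L →+* Ω)
    (G Y : Type) [Group G] [Group Y] : Prop :=
  ∀ B : BlockData p L G, ∃ B' : BlockData p L Y, Nonempty (B'.D ≃* B.D) ∧
    (∃ r : ℕ, 0 < r ∧ Nonempty (Matrix (Fin r) (Fin r) B.Alg ≃+* B'.Alg)) ∧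
    (∃ r : ℕ, 0 < r ∧ Nonempty (Matrix (Fin r) (Fin r) B.Cor ≃+* B'.Cor)) ∧
    EqIr p s B.e B.D.index B'.e B'.D.index ∧
    EqIr p s B.c (B.D.subgroupOf (Subgroup.normalizer (B.D : Set G))).index
      B'.c (B'.D.subgroupOf (Subgroup.normalizer (B'.D : Set Y))).index ∧
    (AMN s B' ↔ AMN s B)

theorem amn_ind {Ω X V G : Type} [Field Ω] [Group X] [CommGroup V] [Group G] [Fintype X]
    [Fintype V] [Finite G] (I : Ind L X V G) (hV : ¬ p ∣ Nat.card V) {u : L}
    (hu : u * (Fintype.card V : L) = 1) (s : L →+* Ω) (hs : Function.Injective s) {x₀ : X}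
    (h₀ : (I.om s hs).Inv x₀) : ReproN p s G X := by
  rintro ⟨e, he, D, hD, c, hc, hec⟩
  have hlam : ∀ v, rs L (I.lam v : L) = 1 → I.lam v = 1 := by
    intro v hv
    apply Units.ext
    refine root_one (p := p) (q := Nat.card V) hV ?_ hv
    rw [← Units.val_pow_eq_pow_val, ← map_pow, pow_card_eq_one', map_one, Units.val_one]
  let I0 := I.nor D hD.1 hV
  have hlam0 : ∀ v, rs L (I0.lam v : L) = 1 → I0.lam v = 1 := fun v hv => hlam v.1 hv
  have hu1 : rs L u * (Fintype.card V : ResidueField L) = 1 := by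
    rw [← map_natCast (rs L), ← map_mul, hu, map_one]
  have hVL : ∀ m : ℕ, ¬ p ∣ m → IsUnit ((m : ℕ) : L) := by
    intro m hm
    rw [← IsLocalRing.notMem_maximalIdeal, ← IsLocalRing.residue_eq_zero_iff, map_natCast,
      CharP.cast_eq_zero_iff (ResidueField L) p]
    exact hm
  have hV0 : ¬ p ∣ Nat.card (I.V0 D) := fun h => hV (h.trans (Subgroup.card_subgroup_dvd_card _))
  obtain ⟨u0, hu0⟩ := (isUnit_iff_exists_inv'.mp (hVL _ hV0))
  have hu0' : u0 * (Fintype.card (I.V0 D) : L) = 1 := by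
    rw [← Nat.card_eq_fintype_card, hu0]
  have hru : rs L u0 = rs L u := by
    have h1 : (Fintype.card V : ResidueField L) = (Nat.card (I.V0 D) : ResidueField L) :=
      (I.map (rs L) hlam).card_V0 D hD.1 hV
    have h2 : rs L u0 * (Nat.card (I.V0 D) : ResidueField L) = 1 := by
      rw [← map_natCast (rs L), ← map_mul, hu0, map_one]
    have h3 : (Nat.card (I.V0 D) : ResidueField L) ≠ 0 := by
      intro h
      rw [h, mul_zero] at h2
      exact zero_ne_one h2
    apply mul_right_cancel₀ h3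
    rw [h2, ← h1, hu1]
  have hred := red_isBlock he
  have hredc := red_isBlock hc
  have hdef : IsDefect p (I.cen u e) (D.map I.j) := by
    refine ⟨hD.1.map I.j, ?_⟩
    rw [I.red_cen (rs L) hlam]
    exact (I.map (rs L) hlam).cen_isMinTr hu1 hred hD.2
  have hcorr : IsCorr (I.cen u e) (D.map I.j) (I0.cen u0 c) := by
    unfold IsCorr
    rw [I.red_cen (rs L) hlam, I0.red_cen (rs L) hlam0, hru]
    exact (I.map (rs L) hlam).cen_isBr D hD.1 hV hu1 hred.central hD.2.1 hredc.central hec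
  have hx₀ : x₀ ∈ I.N D := by
    rw [mem_nor_iff]
    ext x
    rw [mem_cs]
    constructor
    · rintro ⟨d, hd, h⟩
      change I.j d = _ at h
      refine ⟨d, hd, ?_⟩
      have h1 : x = x₀ * I.j d * x₀⁻¹ := by
        rw [h]
        group
      have h2 : x₀ * I.j d = I.j d * x₀ := h₀.comm d
      rw [h1, h2]
      group
    · rintro ⟨d, hd, rfl⟩
      refine ⟨d, hd, ?_⟩
      change I.j d = x₀⁻¹ * I.j d * x₀
      rw [mul_assoc]
      have h1 : x₀ * I.j d = I.j d * x₀ := h₀.comm d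
      rw [← h1, inv_mul_cancel_left]
  have h₀0 : (I0.om s hs).Inv (⟨x₀, hx₀⟩ : I.N D) := by
    refine ⟨?_, ?_, ?_⟩
    · rcases h₀.ord with h | h
      · exact Or.inl fun v => h v.1
      · exact Or.inr fun v => h v.1
    · intro g
      exact Subtype.ext (h₀.comm (g : G))
    · intro v
      exact h₀.inv (v : V)
  have hsub : (D.subgroupOf (Subgroup.normalizer (D : Set G))).map I0.j =
      (D.map I.j).subgroupOf (Subgroup.normalizer ((D.map I.j : Subgroup X) : Set X)) := by
    ext x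
    rw [Subgroup.mem_subgroupOf]
    constructor
    · rintro ⟨g, hg, rfl⟩
      exact ⟨(g : G), hg, rfl⟩
    · rintro ⟨d, hd, h⟩
      exact ⟨⟨d, Subgroup.le_normalizer hd⟩, hd, Subtype.ext h⟩
  have hE := I.eqIr hu s hs h₀ hV he.central D
  have hE0 := I0.eqIr hu0' s hs h₀0 hV0 hc.central (D.subgroupOf (Subgroup.normalizer (D : Set G)))
  rw [hsub] at hE0
  refine ⟨⟨I.cen u e, I.cen_isBlock hu he, D.map I.j, hdef, I0.cen u0 c,
    I0.cen_isBlock hu0' hc, hcorr⟩, ⟨(D.equivMapOfInjective I.j I.j_inj).symm⟩, ?_, ?_, hE, hE0, ?_⟩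
  · haveI : Nonempty I.Q := ⟨QuotientGroup.mk 1⟩
    refine ⟨Fintype.card I.Q, Fintype.card_pos, ⟨?_⟩⟩
    exact ((Matrix.reindexAlgEquiv ℤ (BlockAlg he) (Fintype.equivFin I.Q).symm).toRingEquiv).trans
      (I.blockEquiv hu he)
  · haveI : Nonempty I0.Q := ⟨QuotientGroup.mk 1⟩
    refine ⟨Fintype.card I0.Q, Fintype.card_pos, ⟨?_⟩⟩
    exact ((Matrix.reindexAlgEquiv ℤ (BlockAlg hc)
      (Fintype.equivFin I0.Q).symm).toRingEquiv).trans (I0.blockEquiv hu0' hc)
  · exact HBij.iff hE hE0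

end main

end Pool.Agent.H373.BU
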